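import Mathlib

open Finset

namespace Pool.Agent.HLf6dccc

section pair

variable {n : ℕ} {B : Type*} [CommRing B]

/-- product over pairs `i < j` -/
def pairProd (f : Fin n → Fin n → B) : B := ∏ i, ∏ j, if i < j then f i j else 1

lemma pairProd_eq_Ioi (f : Fin n → Fin n → B) : pairProd f = ∏ i, ∏ j > i, f i j := by
  unfold pairProd
  refine Finset.prod_congr rfl fun i _ => ?_
  rw [← Finset.prod_filter]
  congr 1
  ext j; simp

lemma pairProd_perm (σ : Equiv.Perm (Fin n)) {f : Fin n → Fin n → B}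
    (hf : ∀ i j, f i j = - f j i) :
    pairProd (fun i j => f (σ i) (σ j)) = (Equiv.Perm.sign σ : ℤ) * pairProd f := by
  rw [pairProd_eq_Ioi, pairProd_eq_Ioi]
  exact σ.prod_Ioi_comp_eq_sign_mul_prod hf

lemma pairProd_snoc (f : Fin (n+1) → Fin (n+1) → B) :
    pairProd f = pairProd (fun i j : Fin n => f i.castSucc j.castSucc) *
      ∏ i : Fin n, f i.castSucc (Fin.last n) := by
  unfold pairProd
  rw [Fin.prod_univ_castSucc]
  simp only [Fin.prod_univ_castSucc]
  rw [Finset.prod_mul_distrib]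
  simp [Fin.castSucc_lt_last, not_lt_of_ge (Fin.le_last _)]

lemma pairProd_cons (f : Fin (n+1) → Fin (n+1) → B) :
    pairProd f = (∏ j : Fin n, f 0 j.succ) * pairProd (fun i j : Fin n => f i.succ j.succ) := by
  unfold pairProd
  simp only [Fin.prod_univ_succ]
  simp

lemma pairProd_mul (f g : Fin n → Fin n → B) :
    pairProd (fun i j => f i j * g i j) = pairProd f * pairProd g := by
  unfold pairProd
  rw [← Finset.prod_mul_distrib]
  refine Finset.prod_congr rfl fun i _ => ?_
  rw [← Finset.prod_mul_distrib]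
  refine Finset.prod_congr rfl fun j _ => ?_
  split_ifs <;> simp

lemma pairProd_congr {f g : Fin n → Fin n → B} (h : ∀ i j, i < j → f i j = g i j) :
    pairProd f = pairProd g := by
  unfold pairProd
  refine Finset.prod_congr rfl fun i _ => Finset.prod_congr rfl fun j _ => ?_
  split_ifs with hij
  · exact h i j hij
  · rfl

lemma map_pairProd {B' : Type*} [CommRing B'] {F : Type*} [FunLike F B B'] [RingHomClass F B B']
    (φ : F) (f : Fin n → Fin n → B) :
    φ (pairProd f) = pairProd (fun i j => φ (f i j)) := by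
  unfold pairProd
  rw [map_prod]
  refine Finset.prod_congr rfl fun i _ => ?_
  rw [map_prod]
  refine Finset.prod_congr rfl fun j _ => ?_
  split_ifs <;> simp

/-- product over all ordered pairs with `g i i = 1` -/
lemma prod_prod_eq_pairProd (g : Fin n → Fin n → B) (hg : ∀ i, g i i = 1) :
    ∏ i, ∏ j, g i j = pairProd (fun i j => g i j * g j i) := by
  rw [pairProd_mul]
  have h1 : ∀ i j, g i j = (if i < j then g i j else 1) * (if j < i then g i j else 1) := by
    intro i j
    rcases lt_trichotomy i j with h | h | h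
    · simp [h, not_lt_of_gt h]
    · subst h; simp [hg]
    · simp [h, not_lt_of_gt h]
  calc ∏ i, ∏ j, g i j = ∏ i, ∏ j, (if i < j then g i j else 1) * (if j < i then g i j else 1) := by
        refine Finset.prod_congr rfl fun i _ => Finset.prod_congr rfl fun j _ => h1 i j
    _ = (∏ i, ∏ j, (if i < j then g i j else 1)) * ∏ i, ∏ j, (if j < i then g i j else 1) := by
        simp only [Finset.prod_mul_distrib]
    _ = _ := by
        congr 1
        unfold pairProd
        rw [Finset.prod_comm]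

/-- the numerator factor -/
def DD (x : Fin n → B) (t : B) (α : Fin n → ℕ) (i j : Fin n) : B :=
  if α j < α i then x i - t * x j else if α i < α j then t * x i - x j else x i - x j

lemma DD_antisymm (x : Fin n → B) (t : B) (α : Fin n → ℕ) (i j : Fin n) :
    DD x t α i j = - DD x t α j i := by
  unfold DD
  rcases lt_trichotomy (α i) (α j) with h | h | h
  · simp [h, not_lt_of_gt h]
  · simp [h]
  · simp [h, not_lt_of_gt h]

/-- the numerator term -/
def termN (x : Fin n → B) (t : B) (α : Fin n → ℕ) : B :=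
  (∏ i, x i ^ α i) * pairProd (DD x t α)

def vand (x : Fin n → B) : B := pairProd (fun i j => x i - x j)

lemma map_vand {B' : Type*} [CommRing B'] {F : Type*} [FunLike F B B'] [RingHomClass F B B']
    (φ : F) (x : Fin n → B) : φ (vand x) = vand (fun i => φ (x i)) := by
  unfold vand
  rw [map_pairProd]
  simp

lemma map_termN {B' : Type*} [CommRing B'] {F : Type*} [FunLike F B B'] [RingHomClass F B B']
    (φ : F) (x : Fin n → B) (t : B) (α : Fin n → ℕ) :
    φ (termN x t α) = termN (fun i => φ (x i)) (φ t) α := by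
  unfold termN
  rw [map_mul, map_pairProd, map_prod]
  simp only [map_pow]
  congr 2
  funext i j
  unfold DD
  split_ifs <;> simp

lemma vand_comp (x : Fin n → B) (σ : Equiv.Perm (Fin n)) :
    vand (x ∘ σ) = (Equiv.Perm.sign σ : ℤ) * vand x := by
  unfold vand
  exact pairProd_perm σ (f := fun i j => x i - x j) (by intro i j; ring)

lemma termN_comp (x : Fin n → B) (t : B) (α : Fin n → ℕ) (σ : Equiv.Perm (Fin n)) :
    termN (x ∘ σ) t α = (Equiv.Perm.sign σ : ℤ) * termN x t (α ∘ σ.symm) := by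
  unfold termN
  have h1 : pairProd (DD (x ∘ σ) t α) =
      pairProd (fun i j => DD x t (α ∘ σ.symm) (σ i) (σ j)) := by
    refine pairProd_congr fun i j _ => ?_
    simp [DD]
  rw [h1, pairProd_perm σ (DD_antisymm x t _)]
  have h2 : ∏ i, (x ∘ σ) i ^ α i = ∏ i, x i ^ (α ∘ σ.symm) i := by
    rw [← Equiv.prod_comp σ (fun i => x i ^ (α ∘ σ.symm) i)]
    simp
  rw [h2]; ring

lemma vand_snoc_zero (x : Fin n → B) :
    vand (Fin.snoc x 0 : Fin (n+1) → B) = vand x * ∏ i, x i := by
  unfold vand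
  rw [pairProd_snoc]
  simp

lemma termN_snoc_zero_of_pos (x : Fin n → B) (t : B) (α : Fin (n+1) → ℕ)
    (h : α (Fin.last n) ≠ 0) :
    termN (Fin.snoc x 0 : Fin (n+1) → B) t α = 0 := by
  unfold termN
  rw [Fin.prod_univ_castSucc]
  simp [h]

lemma termN_snoc_zero (x : Fin n → B) (t : B) (α : Fin n → ℕ) :
    termN (Fin.snoc x 0 : Fin (n+1) → B) t (Fin.snoc α 0 : Fin (n+1) → ℕ) =
      termN x t α * ∏ i, x i := by
  unfold termN
  rw [pairProd_snoc, Fin.prod_univ_castSucc]
  simp only [Fin.snoc_castSucc, Fin.snoc_last, pow_zero, mul_one]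
  rw [mul_assoc]
  congr 2
  · refine pairProd_congr fun i j _ => ?_
    simp [DD]
  · refine Finset.prod_congr rfl fun i _ => ?_
    simp only [DD, Fin.snoc_castSucc, Fin.snoc_last, mul_zero, sub_zero, not_lt_zero, if_false]
    split_ifs <;> rfl

/-- the key computation at `t = -1` -/
lemma vand_cons_cons (x : Fin n → B) (z : B) :
    vand (Fin.cons z (Fin.cons (-z) x : Fin (n+1) → B) : Fin (n+2) → B) =
      2 * z * (∏ i, (x i ^ 2 - z ^ 2)) * vand x := by
  unfold vand
  rw [pairProd_cons, pairProd_cons, Fin.prod_univ_succ]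
  simp only [Fin.cons_zero, Fin.cons_succ]
  have : ∏ i, (x i ^ 2 - z ^ 2) = (∏ i, (z - x i)) * ∏ i, (-z - x i) := by
    rw [← Finset.prod_mul_distrib]
    refine Finset.prod_congr rfl fun i _ => by ring
  rw [this]
  ring

lemma termN_cons_cons_ne (x : Fin n → B) (z : B) (r s : ℕ) (h : r ≠ s) (α : Fin n → ℕ) :
    termN (Fin.cons z (Fin.cons (-z) x : Fin (n+1) → B) : Fin (n+2) → B) (-1)
      (Fin.cons r (Fin.cons s α : Fin (n+1) → ℕ) : Fin (n+2) → ℕ) = 0 := by
  unfold termN
  rw [pairProd_cons, Fin.prod_univ_succ (f := fun j : Fin (n+1) => DD _ _ _ 0 j.succ)]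
  have : DD (Fin.cons z (Fin.cons (-z) x : Fin (n+1) → B) : Fin (n+2) → B) (-1)
      (Fin.cons r (Fin.cons s α : Fin (n+1) → ℕ) : Fin (n+2) → ℕ) 0 (Fin.succ 0) = 0 := by
    unfold DD
    simp only [Fin.cons_zero, Fin.cons_succ]
    rcases lt_or_gt_of_ne h with h | h
    · simp [h, not_lt_of_gt h]
    · simp [h]
  rw [this]
  ring

lemma termN_cons_cons_eq (x : Fin n → B) (z : B) (r : ℕ) (α : Fin n → ℕ) :
    termN (Fin.cons z (Fin.cons (-z) x : Fin (n+1) → B) : Fin (n+2) → B) (-1)
      (Fin.cons r (Fin.cons r α : Fin (n+1) → ℕ) : Fin (n+2) → ℕ) =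
      2 * z * (∏ i, (x i ^ 2 - z ^ 2)) * ((-z ^ 2) ^ r * termN x (-1) α) := by
  unfold termN
  rw [pairProd_cons, pairProd_cons, Fin.prod_univ_succ (f := fun j : Fin (n+1) => DD _ _ _ 0 j.succ),
    Fin.prod_univ_succ, Fin.prod_univ_succ]
  simp only [Fin.cons_zero, Fin.cons_succ]
  have h1 : DD (Fin.cons z (Fin.cons (-z) x : Fin (n+1) → B) : Fin (n+2) → B) (-1)
      (Fin.cons r (Fin.cons r α : Fin (n+1) → ℕ) : Fin (n+2) → ℕ) 0 (Fin.succ 0) = 2 * z := by
    unfold DD
    simp only [Fin.cons_zero, Fin.cons_succ]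
    simp; ring
  have h2 : (∏ j : Fin n, DD (Fin.cons z (Fin.cons (-z) x : Fin (n+1) → B) : Fin (n+2) → B) (-1)
      (Fin.cons r (Fin.cons r α : Fin (n+1) → ℕ) : Fin (n+2) → ℕ) 0 j.succ.succ) *
      (∏ j : Fin n, DD (Fin.cons z (Fin.cons (-z) x : Fin (n+1) → B) : Fin (n+2) → B) (-1)
      (Fin.cons r (Fin.cons r α : Fin (n+1) → ℕ) : Fin (n+2) → ℕ) (Fin.succ 0) j.succ.succ) =
      ∏ i, (x i ^ 2 - z ^ 2) := by
    rw [← Finset.prod_mul_distrib]
    refine Finset.prod_congr rfl fun i _ => ?_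
    unfold DD
    simp only [Fin.cons_zero, Fin.cons_succ]
    rcases lt_trichotomy (α i) r with h | h | h
    · simp [h]; ring
    · simp [h]; ring
    · simp [h, not_lt_of_gt h]; ring
  have h3 : pairProd (fun i j : Fin n => DD (Fin.cons z (Fin.cons (-z) x : Fin (n+1) → B) : Fin (n+2) → B) (-1)
      (Fin.cons r (Fin.cons r α : Fin (n+1) → ℕ) : Fin (n+2) → ℕ) i.succ.succ j.succ.succ) =
      pairProd (DD x (-1) α) := by
    refine pairProd_congr fun i j _ => ?_
    simp [DD]
  rw [h1, h3, ← h2]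
  have h4 : (-z ^ 2) ^ r = z ^ r * (-z) ^ r := by
    rw [← mul_pow]; congr 1; ring
  rw [h4]
  ring

end pair

section field

variable {n : ℕ} {K : Type*} [Field K]

lemma vand_mul_ratTerm (x : Fin n → K) (hx : Function.Injective x) (t : K) (α : Fin n → ℕ) :
    vand x * ((∏ i, x i ^ α i) *
      ∏ i, ∏ j, if α j < α i then (x i - t * x j) / (x i - x j) else 1) = termN x t α := by
  unfold vand termN
  rw [prod_prod_eq_pairProd _ (by intro i; simp)]
  rw [mul_left_comm, ← pairProd_mul]
  congr 1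
  refine pairProd_congr fun i j hij => ?_
  have hne : x i - x j ≠ 0 := sub_ne_zero.mpr (hx.ne hij.ne)
  have hne' : x j - x i ≠ 0 := sub_ne_zero.mpr (hx.ne hij.ne')
  unfold DD
  rcases lt_trichotomy (α i) (α j) with h | h | h
  · simp only [h, not_lt_of_gt h, if_true, if_false]
    field_simp
    ring
  · simp [h]
  · simp only [h, not_lt_of_gt h, if_true, if_false]
    field_simp

lemma vand_ne_zero {K : Type*} [CommRing K] [NoZeroDivisors K] [Nontrivial K] (x : Fin n → K) (hx : Function.Injective x) : vand x ≠ 0 := by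
  unfold vand pairProd
  refine Finset.prod_ne_zero_iff.mpr fun i _ => Finset.prod_ne_zero_iff.mpr fun j _ => ?_
  split_ifs with hij
  · exact sub_ne_zero.mpr (hx.ne hij.ne)
  · exact one_ne_zero

end field

end Pool.Agent.HLf6dccc
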