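import Mathlib

/-!
Definitions for problem MP_f6dccc_co (a weighted sum of Hall–Littlewood functions at `t = -1`).
-/

open Finset

namespace Pool.Agent.HLf6dccc

noncomputable section

/-- The formal sum of a family of power series, computed coefficient by coefficient
(the coefficient of each monomial is the sum of the coefficients of the members of the family;
in all uses below only finitely many of these are nonzero). -/
def formalSum {ι σ A : Type} [CommRing A] (F : ι → MvPowerSeries σ A) : MvPowerSeries σ A :=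
  fun β => ∑ᶠ i, MvPowerSeries.coeff β (F i)

/-- The `i`-th row of a partition, rows being counted from `0`: `row lam i = λ_{i+1}`
(it is `0` once the rows are exhausted). -/
def row {m : ℕ} (lam : Nat.Partition m) (i : ℕ) : ℕ :=
  (lam.parts.sort (· ≥ ·)).getD i 0

/-- `v_k(t) = ∏_{i=1}^{k} (1 - t^i)/(1 - t)`. -/
def vFun {K : Type*} [Field K] (t : K) (k : ℕ) : K :=
  ∏ i ∈ range k, (1 - t ^ (i + 1)) / (1 - t)

/-- The Hall–Littlewood polynomial `P_λ(x_1,…,x_n;t)` for `ℓ(λ) ≤ n`, as a rational function over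
`ℤ[t]`, by Macdonald's definition (III.2):
`P_λ = v_λ(t)⁻¹ ∑_{w ∈ S_n} w(x_1^{λ_1} ⋯ x_n^{λ_n} ∏_{i<j} (x_i - t x_j)/(x_i - x_j))`,
where `v_λ(t) = ∏_{k ≥ 0} v_{m_k}(t)` and `m_k` is the number of `i ≤ n` with `λ_i = k`. -/
def hlRat {m : ℕ} (lam : Nat.Partition m) (n : ℕ) :
    FractionRing (MvPolynomial (Fin n) (Polynomial ℤ)) :=
  let x : Fin n → FractionRing (MvPolynomial (Fin n) (Polynomial ℤ)) :=
    fun i => algebraMap (MvPolynomial (Fin n) (Polynomial ℤ)) _ (MvPolynomial.X i)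
  let t : FractionRing (MvPolynomial (Fin n) (Polynomial ℤ)) :=
    algebraMap (MvPolynomial (Fin n) (Polynomial ℤ)) _ (MvPolynomial.C Polynomial.X)
  (∏ k ∈ range (m + 1), vFun t (Finset.univ.filter fun i : Fin n => row lam i = k).card)⁻¹ *
    ∑ w : Equiv.Perm (Fin n), (∏ i : Fin n, x (w i) ^ row lam i) *
      ∏ i : Fin n, ∏ j : Fin n,
        if i < j then (x (w i) - t * x (w j)) / (x (w i) - x (w j)) else 1

/-- `P` is the Hall–Littlewood symmetric function `P_λ(x;t)` in the countably many variables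
`x_0, x_1, …`: for every `n ≥ ℓ(λ)`, putting `x_n = x_{n+1} = … = 0` in `P` leaves a polynomial
in `x_0, …, x_{n-1}` over `ℤ[t]`, equal to `P_λ(x_0,…,x_{n-1};t)`. -/
def IsHallLittlewoodP {m : ℕ} (lam : Nat.Partition m) (P : MvPowerSeries ℕ (Polynomial ℤ)) :
    Prop :=
  ∀ n, lam.parts.card ≤ n → ∃ p : MvPolynomial (Fin n) (Polynomial ℤ),
    (p : MvPowerSeries (Fin n) (Polynomial ℤ)) = MvPowerSeries.killCompl Fin.valEmbedding P ∧
      algebraMap _ (FractionRing (MvPolynomial (Fin n) (Polynomial ℤ))) p = hlRat lam n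

open Classical in
/-- The Hall–Littlewood symmetric function `P_λ(x;t)`. -/
def hallLittlewoodP {m : ℕ} (lam : Nat.Partition m) : MvPowerSeries ℕ (Polynomial ℤ) :=
  if h : ∃ P, IsHallLittlewoodP lam P then h.choose else 0

/-- The ring `ℚ[a,b,c,d]`. -/
abbrev Coef : Type := MvPolynomial (Fin 4) ℚ

def a : Coef := MvPolynomial.X 0
def b : Coef := MvPolynomial.X 1
def c : Coef := MvPolynomial.X 2
def d : Coef := MvPolynomial.X 3

/-- The weight `ω(λ)`. -/
def omega {m : ℕ} (lam : Nat.Partition m) : Coef :=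
  a ^ (∑ i ∈ range m, (row lam (2 * i) + 1) / 2) * b ^ (∑ i ∈ range m, row lam (2 * i) / 2) *
    (c ^ (∑ i ∈ range m, (row lam (2 * i + 1) + 1) / 2) *
      d ^ (∑ i ∈ range m, row lam (2 * i + 1) / 2))

/-- `P_λ(x;-1)`, with coefficients regarded in `ℚ[a,b,c,d]`. -/
def hlNegOne {m : ℕ} (lam : Nat.Partition m) : MvPowerSeries ℕ Coef :=
  MvPowerSeries.map ((Int.castRingHom Coef).comp (Polynomial.evalRingHom (-1)))
    (hallLittlewoodP lam)

/-- `w(x;-1) = ∑_λ ω(λ) P_λ(x;-1)`, the sum over all partitions. -/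
def w : MvPowerSeries ℕ Coef :=
  formalSum fun lam : (Σ m, Nat.Partition m) => MvPowerSeries.C (omega lam.2) * hlNegOne lam.2

/-- The power sum `p_k = ∑_i x_i^k` (for `k ≥ 1`). -/
def psum (k : ℕ) : MvPowerSeries ℕ Coef :=
  formalSum fun i : ℕ => MvPowerSeries.X i ^ k

/-- `log w(x;-1) = ∑_{k ≥ 1} (-1)^{k+1} (w(x;-1) - 1)^k / k`. -/
def logW : MvPowerSeries ℕ Coef :=
  (PowerSeries.log Coef).subst (w - 1)

/-- The series `L` of the problem. -/
def L : MvPowerSeries ℕ Coef :=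
  logW
    + formalSum (fun n : ℕ => if Odd n then
        MvPowerSeries.C ((1 / (2 * n) : ℚ) • (a ^ n * c ^ n)) * psum (2 * n) else 0)
    + formalSum (fun n : ℕ => if Even n ∧ 2 ≤ n then
        MvPowerSeries.C ((1 / (2 * n) : ℚ) • (a ^ (n / 2) * c ^ (n / 2) *
          (a ^ (n / 2) * c ^ (n / 2) - 2 * (b ^ (n / 2) * d ^ (n / 2))))) * psum (2 * n) else 0)

/-- `F ∈ ℚ[[p_1,p_3,p_5,…]]` (with coefficients in `ℚ[a,b,c,d]`): `F` is the formal sum
`∑_μ c_μ p_μ` over all partitions `μ`, `p_μ = ∏_{k ∈ μ} p_k`, where the coefficients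
`c_μ ∈ ℚ[a,b,c,d]` vanish for every `μ` with at least one even part. -/
def InOddPowerSums (F : MvPowerSeries ℕ Coef) : Prop :=
  ∃ coef : (Σ m, Nat.Partition m) → Coef,
    (∀ μ, (∃ k ∈ μ.2.parts, Even k) → coef μ = 0) ∧
      F = formalSum fun μ => MvPowerSeries.C (coef μ) * (μ.2.parts.map psum).prod

end

end Pool.Agent.HLf6dccc
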