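import Pool.Agent.HLf6dccc.Alg
import Pool.Agent.HLf6dccc.Defs

open Finset

namespace Pool.Agent.HLf6dccc

section rearr

variable {n : ℕ}

/-- nonzero values as a multiset -/
def nz (α : Fin n → ℕ) : Multiset ℕ := (univ.val.map α).filter (· ≠ 0)

lemma sum_filter_ne_zero (s : Multiset ℕ) : (s.filter (· ≠ 0)).sum = s.sum := by
  induction s using Multiset.induction_on with
  | empty => simp
  | cons a s ih =>
    by_cases h : a = 0
    · simp [h] at *
      simpa using ih
    · simp [h] at *
      simpa using ih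

lemma sum_nz (α : Fin n → ℕ) : (nz α).sum = ∑ i, α i := by
  unfold nz
  rw [sum_filter_ne_zero]
  rfl

lemma nz_comp (α : Fin n → ℕ) (σ : Equiv.Perm (Fin n)) : nz (α ∘ σ) = nz α := by
  unfold nz
  rw [← Multiset.map_map, Multiset.map_univ_val_equiv]

def Rearr (n : ℕ) (M : Multiset ℕ) : Finset (Fin n → ℕ) :=
  (Fintype.piFinset fun _ => range (M.sum + 1)).filter fun α => nz α = M

lemma mem_Rearr {α : Fin n → ℕ} {M : Multiset ℕ} : α ∈ Rearr n M ↔ nz α = M := by
  unfold Rearr
  rw [Finset.mem_filter, Fintype.mem_piFinset]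
  constructor
  · exact fun h => h.2
  · intro h
    refine ⟨fun i => ?_, h⟩
    rw [Finset.mem_range, Nat.lt_succ_iff, ← h, sum_nz]
    exact Finset.single_le_sum (f := α) (fun _ _ => Nat.zero_le _) (Finset.mem_univ i)

lemma nz_snoc (α : Fin n → ℕ) (r : ℕ) :
    nz (Fin.snoc α r : Fin (n+1) → ℕ) = if r = 0 then nz α else r ::ₘ nz α := by
  unfold nz
  have : (univ.val.map (Fin.snoc α r : Fin (n+1) → ℕ)) = r ::ₘ univ.val.map α := by
    rw [Fin.univ_castSuccEmb]
    simp [Multiset.map_map, Function.comp_def]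
  rw [this]
  split_ifs with h
  · simp [h]
  · simp [h]

lemma nz_cons (α : Fin n → ℕ) (r : ℕ) :
    nz (Fin.cons r α : Fin (n+1) → ℕ) = if r = 0 then nz α else r ::ₘ nz α := by
  unfold nz
  have : (univ.val.map (Fin.cons r α : Fin (n+1) → ℕ)) = r ::ₘ univ.val.map α := by
    rw [Fin.univ_succ]
    simp [Multiset.map_map, Function.comp_def]
  rw [this]
  split_ifs with h
  · simp [h]
  · simp [h]

variable {B : Type*} [CommRing B]

def numer (n : ℕ) (M : Multiset ℕ) (x : Fin n → B) (t : B) : B := ∑ α ∈ Rearr n M, termN x t α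

lemma map_numer {B' : Type*} [CommRing B'] {F : Type*} [FunLike F B B'] [RingHomClass F B B']
    (φ : F) (M : Multiset ℕ) (x : Fin n → B) (t : B) :
    φ (numer n M x t) = numer n M (fun i => φ (x i)) (φ t) := by
  unfold numer
  rw [map_sum]
  exact Finset.sum_congr rfl fun α _ => map_termN φ x t α

lemma numer_comp (M : Multiset ℕ) (x : Fin n → B) (t : B) (σ : Equiv.Perm (Fin n)) :
    numer n M (x ∘ σ) t = (Equiv.Perm.sign σ : ℤ) * numer n M x t := by
  unfold numer
  rw [Finset.mul_sum]
  refine Finset.sum_nbij' (fun α => α ∘ σ.symm) (fun α => α ∘ σ) ?_ ?_ ?_ ?_ ?_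
  · intro α hα
    rw [mem_Rearr] at *
    rw [nz_comp, hα]
  · intro α hα
    rw [mem_Rearr] at *
    rw [nz_comp, hα]
  · intro α _; funext i; simp
  · intro α _; funext i; simp
  · intro α _
    rw [termN_comp]

lemma numer_snoc_zero (M : Multiset ℕ) (x : Fin n → B) (t : B) :
    numer (n+1) M (Fin.snoc x 0) t = numer n M x t * ∏ i, x i := by
  unfold numer
  rw [Finset.sum_mul]
  have h0 : ∑ α ∈ Rearr (n+1) M, termN (Fin.snoc x 0 : Fin (n+1) → B) t α =
      ∑ α ∈ (Rearr (n+1) M).filter (fun α => α (Fin.last n) = 0),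
        termN (Fin.snoc x 0 : Fin (n+1) → B) t α := by
    rw [Finset.sum_filter_of_ne]
    intro α _ h
    by_contra hne
    exact h (termN_snoc_zero_of_pos x t α hne)
  rw [h0]
  symm
  refine Finset.sum_nbij' (fun α => (Fin.snoc α 0 : Fin (n+1) → ℕ)) (fun α => Fin.init α) ?_ ?_ ?_ ?_ ?_
  · intro α hα
    rw [mem_Rearr] at hα
    simp [mem_Rearr, nz_snoc, hα]
  · intro α hα
    rw [Finset.mem_filter, mem_Rearr] at hα
    rw [mem_Rearr, ← hα.1]
    conv_rhs => rw [← Fin.snoc_init_self α]
    rw [nz_snoc, hα.2]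
    simp
  · intro α _; simp
  · intro α hα
    rw [Finset.mem_filter] at hα
    conv_rhs => rw [← Fin.snoc_init_self α, hα.2]
  · intro α _
    rw [termN_snoc_zero]

lemma numer_eq_zero (M : Multiset ℕ) (h : n < M.card) (x : Fin n → B) (t : B) :
    numer n M x t = 0 := by
  unfold numer
  refine Finset.sum_eq_zero fun α hα => ?_
  rw [mem_Rearr] at hα
  exfalso
  have h1 : (nz α).card ≤ n := by
    unfold nz
    refine (Multiset.card_le_card (Multiset.filter_le _ _)).trans ?_
    simp
  rw [hα] at h1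
  omega

end rearr

section dvd

open MvPolynomial

variable {σ : Type*} [DecidableEq σ] {S : Type*} [CommRing S]

/-- set `X i := X j` -/
noncomputable def ev (i j : σ) : MvPolynomial σ S →ₐ[S] MvPolynomial σ S :=
  aeval (fun k => if k = i then X j else X k)

lemma agree_mod {B : Type*} [CommRing B] [Algebra S B] (I : Ideal B) (f g : MvPolynomial σ S →ₐ[S] B)
    (h : ∀ k, f (X k) - g (X k) ∈ I) (p : MvPolynomial σ S) : f p - g p ∈ I := by
  rw [← Ideal.Quotient.eq]
  have : (Ideal.Quotient.mkₐ S I).comp f = (Ideal.Quotient.mkₐ S I).comp g := by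
    apply MvPolynomial.algHom_ext
    intro k
    exact Ideal.Quotient.eq.mpr (h k)
  exact DFunLike.congr_fun this p

lemma sub_ev_mem (i j : σ) (p : MvPolynomial σ S) :
    p - ev i j p ∈ Ideal.span {(X i - X j : MvPolynomial σ S)} := by
  refine agree_mod _ (AlgHom.id S _) (ev i j) ?_ p
  intro k
  unfold ev
  by_cases hk : k = i
  · subst hk; simp [Ideal.mem_span_singleton]
  · simp [hk]

lemma sub_swap_mem (i j : σ) (p : MvPolynomial σ S) :
    p - rename (Equiv.swap i j) p ∈ Ideal.span {(X i - X j : MvPolynomial σ S)} := by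
  refine agree_mod _ (AlgHom.id S _) (rename (Equiv.swap i j)) ?_ p
  intro k
  rw [Ideal.mem_span_singleton]
  by_cases hk : k = i
  · subst hk; simp
  · by_cases hk' : k = j
    · subst hk'; simp only [AlgHom.coe_id, id_eq, rename_X, Equiv.swap_apply_right]
      exact ⟨-1, by ring⟩
    · simp [Equiv.swap_apply_of_ne_of_ne hk hk']

lemma ev_self (i j : σ) : ev i j (X i - X j : MvPolynomial σ S) = 0 := by
  unfold ev
  by_cases h : j = i
  · simp [h]
  · simp [h]

lemma dvd_iff_ev (i j : σ) (p : MvPolynomial σ S) : (X i - X j) ∣ p ↔ ev i j p = 0 := by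
  constructor
  · rintro ⟨q, rfl⟩
    rw [map_mul, ev_self, zero_mul]
  · intro h
    have := sub_ev_mem i j p
    rw [h, sub_zero, Ideal.mem_span_singleton] at this
    exact this

lemma prime_X_sub_X [IsDomain S] {i j : σ} (h : i ≠ j) :
    Prime (X i - X j : MvPolynomial σ S) := by
  have hne : (X i - X j : MvPolynomial σ S) ≠ 0 := by
    rw [sub_ne_zero]
    exact fun h' => h (MvPolynomial.X_injective h')
  rw [← Ideal.span_singleton_prime hne]
  have : Ideal.span {(X i - X j : MvPolynomial σ S)} = RingHom.ker (ev (S := S) i j) := by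
    ext p
    rw [Ideal.mem_span_singleton, dvd_iff_ev, RingHom.mem_ker]
  rw [this]
  exact RingHom.ker_isPrime _

lemma dvd_of_swap_neg [IsDomain S] [CharZero S] {i j : σ} (h : i ≠ j) (p : MvPolynomial σ S)
    (hp : rename (Equiv.swap i j) p = - p) : (X i - X j) ∣ p := by
  have h1 := sub_swap_mem i j p
  rw [hp, Ideal.mem_span_singleton, sub_neg_eq_add, ← two_mul] at h1
  rcases (prime_X_sub_X h).dvd_or_dvd h1 with h2 | h2
  · exfalso
    rw [dvd_iff_ev, map_ofNat] at h2
    exact two_ne_zero h2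
  · exact h2

lemma vand_dvd {n : ℕ} [IsDomain S] [CharZero S] (p : MvPolynomial (Fin n) S)
    (hp : ∀ i j : Fin n, i ≠ j → rename (Equiv.swap i j) p = - p) :
    vand (X : Fin n → MvPolynomial (Fin n) S) ∣ p := by
  classical
  have hv : vand (X : Fin n → MvPolynomial (Fin n) S) =
      (((univ : Finset (Fin n × Fin n)).filter (fun q => q.1 < q.2)).val.map
        (fun q => (X q.1 - X q.2 : MvPolynomial (Fin n) S))).prod := by
    change _ = ∏ q ∈ (univ : Finset (Fin n × Fin n)).filter (fun q => q.1 < q.2), (X q.1 - X q.2 : MvPolynomial (Fin n) S)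
    rw [Finset.prod_filter, ← Finset.univ_product_univ, Finset.prod_product]
    rfl
  rw [hv]
  apply Multiset.prod_primes_dvd
  · intro a ha
    rw [Multiset.mem_map] at ha
    obtain ⟨q, hq, rfl⟩ := ha
    have hq' : q.1 < q.2 := by simpa using hq
    exact prime_X_sub_X hq'.ne
  · intro a ha
    rw [Multiset.mem_map] at ha
    obtain ⟨q, hq, rfl⟩ := ha
    have hq' : q.1 < q.2 := by simpa using hq
    exact dvd_of_swap_neg hq'.ne p (hp _ _ hq'.ne)
  · intro a
    rw [Multiset.countP_map, ← Finset.filter_val, Finset.card_val, Finset.card_le_one]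
    intro q hq q' hq'
    simp only [Finset.mem_filter, Finset.mem_univ, true_and] at hq hq'
    have h1 : (X q.1 - X q.2 : MvPolynomial (Fin n) S) ∣ X q'.1 - X q'.2 :=
      (hq.2.symm.trans hq'.2).dvd
    rw [dvd_iff_ev, map_sub, sub_eq_zero] at h1
    unfold ev at h1
    rw [aeval_X, aeval_X] at h1
    have l1 := hq.1
    have l2 := hq'.1
    split_ifs at h1 with h2 h3 h3
    · rw [h2, h3] at l2; exact absurd l2 (lt_irrefl _)
    · have := MvPolynomial.X_injective h1
      exact Prod.ext h2.symm this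
    · have := MvPolynomial.X_injective h1
      rw [this, h3] at l2
      exact absurd l1 (not_lt_of_gt l2)
    · have := MvPolynomial.X_injective h1
      rw [this] at l2; exact absurd l2 (lt_irrefl _)

end dvd

end Pool.Agent.HLf6dccc
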