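import Pool.Agent.HLf6dccc.OddP

open Finset

namespace Pool.Agent.HLf6dccc

/-- symmetric series form a subalgebra -/
def symAlg : Subalgebra Coef (MvPowerSeries ℕ Coef) where
  carrier := {F | SymF F}
  mul_mem' := by
    intro F G hF hG n σ
    rw [map_mul, map_mul, hF n σ, hG n σ]
  add_mem' := by
    intro F G hF hG n σ
    rw [map_add, map_add, hF n σ, hG n σ]
  algebraMap_mem' := by
    intro r n σ
    rw [AlgHom.commutes, AlgHom.commutes]

/-- cancelling series form a subalgebra -/
def canAlg : Subalgebra Coef (MvPowerSeries ℕ Coef) where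
  carrier := {F | CanF F}
  mul_mem' := by
    intro F G hF hG n
    rw [map_mul, map_mul, hF n, hG n]
  add_mem' := by
    intro F G hF hG n
    rw [map_add, map_add, hF n, hG n]
  algebraMap_mem' := by
    intro r n
    rw [AlgHom.commutes, AlgHom.commutes]

lemma mem_symAlg {F : MvPowerSeries ℕ Coef} : F ∈ symAlg ↔ SymF F := Iff.rfl
lemma mem_canAlg {F : MvPowerSeries ℕ Coef} : F ∈ canAlg ↔ CanF F := Iff.rfl

lemma symF_psum (k : ℕ) (hk : k ≠ 0) : SymF (psum k) := by
  intro n σ
  rw [psum_eq, Phi_psumG _ k hk, Phi_psumG _ k hk]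
  congr 2
  exact Equiv.sum_comp σ (fun i => (MvPolynomial.X i : MvPolynomial (Fin n) Coef) ^ k)

lemma canF_psum (k : ℕ) (hk : Odd k) : CanF (psum k) := by
  intro n
  have hk0 : k ≠ 0 := by rintro rfl; simp at hk
  rw [psum_eq, Phi_psumG _ k hk0, Phi_psumG _ k hk0]
  congr 2
  rw [Fin.sum_univ_succ, Fin.sum_univ_succ]
  simp only [Fin.cons_zero, Fin.cons_succ]
  rw [Odd.neg_pow hk (MvPolynomial.X 0 : MvPolynomial (Fin (n+1)) Coef)]
  ring

lemma symF_qq (μ : Multiset ℕ) (hμ : ∀ k ∈ μ, 0 < k) : SymF (qq μ) := by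
  rw [← mem_symAlg]
  unfold qq
  apply Subalgebra.multiset_prod_mem
  intro F hF
  rw [Multiset.mem_map] at hF
  obtain ⟨k, hk, rfl⟩ := hF
  exact symF_psum k (hμ k hk).ne'

lemma canF_qq (μ : Multiset ℕ) (hμ : ∀ k ∈ μ, ¬ Even k) : CanF (qq μ) := by
  rw [← mem_canAlg]
  unfold qq
  apply Subalgebra.multiset_prod_mem
  intro F hF
  rw [Multiset.mem_map] at hF
  obtain ⟨k, hk, rfl⟩ := hF
  exact canF_psum k (Nat.not_even_iff_odd.mp (hμ k hk))

lemma C_mul_mem (S : Subalgebra Coef (MvPowerSeries ℕ Coef)) (x : Coef) {F : MvPowerSeries ℕ Coef}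
    (h : F ∈ S) : MvPowerSeries.C x * F ∈ S := by
  have : (MvPowerSeries.C x : MvPowerSeries ℕ Coef) = algebraMap Coef _ x := rfl
  rw [this]
  exact S.mul_mem (S.algebraMap_mem x) h

theorem elim (e : ℕ) (k : ℕ) : ∀ F : MvPowerSeries ℕ Coef, SymF F → CanF F →
    (∀ β : ℕ →₀ ℕ, (vals β).sum = e → k ≤ (vals β).card → MvPowerSeries.coeff β F = 0) →
    ∃ cf : Nat.Partition e → Coef, (∀ μ, (∃ j ∈ μ.parts, Even j) → cf μ = 0) ∧
      ∀ β : ℕ →₀ ℕ, (vals β).sum = e →
        MvPowerSeries.coeff β F = ∑ μ, cf μ * MvPowerSeries.coeff β (qq μ.parts) := by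
  induction k with
  | zero =>
    intro F _ _ h
    refine ⟨fun _ => 0, fun _ _ => rfl, fun β hβ => ?_⟩
    rw [h β hβ (Nat.zero_le _)]
    simp
  | succ k ih =>
    intro F hS hC h
    classical
    have hrep : ∀ μ : Nat.Partition e, ∃ β : ℕ →₀ ℕ, vals β = μ.parts := fun μ =>
      exists_rep μ.parts (fun j hj => μ.parts_pos hj)
    choose r hr using hrep
    have hcq : ∀ μ : Nat.Partition e, ∀ β : ℕ →₀ ℕ, ∃ m : ℕ,
        MvPowerSeries.coeff β (qq μ.parts) = (m : Coef) ∧ (vals β = μ.parts → 0 < m) ∧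
        (m ≠ 0 → (vals β).card ≤ μ.parts.card) ∧
        (m ≠ 0 → (vals β).card = μ.parts.card → vals β = μ.parts) ∧
        (m ≠ 0 → (vals β).sum = μ.parts.sum) := fun μ =>
      coeff_qq μ.parts (fun j hj => μ.parts_pos hj)
    choose m hm1 hm2 hm3 hm4 hm5 using hcq
    set cf : Nat.Partition e → Coef := fun μ =>
      if μ.parts.card = k then (1 / (m μ (r μ) : ℚ)) • MvPowerSeries.coeff (r μ) F else 0 with hcf
    have hcf_even : ∀ μ : Nat.Partition e, (∃ j ∈ μ.parts, Even j) → cf μ = 0 := by
      intro μ hμ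
      simp only [hcf]
      split_ifs with hcard
      · rw [hS.coeff_eq_zero_of hC e k h (r μ) (by rw [hr, μ.parts_sum]) (by rw [hr, hcard])
          (by rw [hr]; exact hμ), smul_zero]
      · rfl
    set G : MvPowerSeries ℕ Coef := F - ∑ μ, MvPowerSeries.C (cf μ) * qq μ.parts with hG
    have hGS : SymF G := by
      rw [← mem_symAlg]
      apply symAlg.sub_mem hS
      apply symAlg.sum_mem
      intro μ _
      exact C_mul_mem _ _ (symF_qq _ (fun j hj => μ.parts_pos hj))
    have hGC : CanF G := by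
      rw [← mem_canAlg]
      apply canAlg.sub_mem hC
      apply canAlg.sum_mem
      intro μ _
      by_cases hμ : ∃ j ∈ μ.parts, Even j
      · rw [hcf_even μ hμ, map_zero, zero_mul]
        exact canAlg.zero_mem
      · push Not at hμ
        refine C_mul_mem _ _ (canF_qq _ ?_)
        intro j hj
        exact hμ j hj
    have hcoefG : ∀ β : ℕ →₀ ℕ, MvPowerSeries.coeff β G =
        MvPowerSeries.coeff β F - ∑ μ, cf μ * MvPowerSeries.coeff β (qq μ.parts) := by
      intro β
      rw [hG, map_sub, map_sum]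
      simp only [MvPowerSeries.coeff_C_mul]
    have hGz : ∀ β : ℕ →₀ ℕ, (vals β).sum = e → k ≤ (vals β).card →
        MvPowerSeries.coeff β G = 0 := by
      intro β hβ hcard
      rw [hcoefG]
      rcases Nat.lt_or_ge k (vals β).card with hlt | hge
      · rw [h β hβ hlt, zero_sub, neg_eq_zero]
        apply Finset.sum_eq_zero
        intro μ _
        simp only [hcf]
        split_ifs with hμ
        · have : m μ β = 0 := by
            by_contra hne
            have := hm3 μ β hne
            omega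
          rw [hm1 μ β, this]; simp
        · simp
      · have hk : (vals β).card = k := le_antisymm hge hcard
        set μ0 : Nat.Partition e := ⟨vals β, fun {i} hi => vals_pos β i hi, hβ⟩ with hμ0
        rw [Finset.sum_eq_single μ0]
        · have e1 : vals β = vals (r μ0) := by rw [hr]
          simp only [hcf]
          rw [if_pos (by exact hk), (symF_qq μ0.parts (fun j hj => μ0.parts_pos hj)).coeff_eq e1,
            hm1 μ0 (r μ0), hS.coeff_eq e1]
          have hpos : 0 < m μ0 (r μ0) := hm2 μ0 (r μ0) (hr μ0)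
          have hne : (m μ0 (r μ0) : ℚ) ≠ 0 := by exact_mod_cast hpos.ne'
          have h2 : ((m μ0 (r μ0) : ℕ) : Coef) = algebraMap ℚ Coef (m μ0 (r μ0) : ℚ) := by simp
          rw [h2, Algebra.smul_def, mul_right_comm, ← map_mul]
          have h3 : 1 / (m μ0 (r μ0) : ℚ) * (m μ0 (r μ0) : ℚ) = 1 := by field_simp
          rw [h3, map_one, one_mul, sub_self]
        · intro μ _ hne
          simp only [hcf]
          split_ifs with hμ
          · have : m μ β = 0 := by
              by_contra hmne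
              have h4 := hm4 μ β hmne (by rw [hk, hμ])
              apply hne
              ext1
              exact h4.symm
            rw [hm1 μ β, this]; simp
          · simp
        · intro hc
          exact absurd (Finset.mem_univ _) hc
    obtain ⟨cf', hcf'1, hcf'2⟩ := ih G hGS hGC hGz
    refine ⟨fun μ => cf μ + cf' μ, ?_, ?_⟩
    · intro μ hμ
      simp only
      rw [hcf_even μ hμ, hcf'1 μ hμ, add_zero]
    · intro β hβ
      have h1 := hcf'2 β hβ
      rw [hcoefG, sub_eq_iff_eq_add] at h1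
      rw [h1, ← Finset.sum_add_distrib]
      refine Finset.sum_congr rfl fun μ _ => ?_
      ring

theorem inOdd_of {F : MvPowerSeries ℕ Coef} (hS : SymF F) (hC : CanF F) : InOddPowerSums F := by
  have h : ∀ e : ℕ, ∃ cf : Nat.Partition e → Coef, (∀ μ, (∃ j ∈ μ.parts, Even j) → cf μ = 0) ∧
      ∀ β : ℕ →₀ ℕ, (vals β).sum = e →
        MvPowerSeries.coeff β F = ∑ μ, cf μ * MvPowerSeries.coeff β (qq μ.parts) := by
    intro e
    refine elim e (e + 1) F hS hC ?_
    intro β hβ hcard
    have := card_vals_le β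
    rw [← vals_sum, hβ] at this
    omega
  choose cf hcf1 hcf2 using h
  refine ⟨fun μ => cf μ.1 μ.2, fun μ hμ => hcf1 μ.1 μ.2 hμ, ?_⟩
  ext β : 1
  change MvPowerSeries.coeff β F = ∑ᶠ μ : (Σ m, Nat.Partition m),
    MvPowerSeries.coeff β (MvPowerSeries.C (cf μ.1 μ.2) * qq μ.2.parts)
  rw [hcf2 _ β rfl]
  rw [finsum_eq_sum_of_support_subset (s := (univ : Finset (Nat.Partition (vals β).sum)).map
    ⟨fun lam => (⟨(vals β).sum, lam⟩ : Σ m, Nat.Partition m), fun x y h => by simpa using h⟩)]
  · rw [Finset.sum_map]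
    refine Finset.sum_congr rfl fun lam _ => ?_
    change _ = MvPowerSeries.coeff β (MvPowerSeries.C (cf (vals β).sum lam) * qq lam.parts)
    rw [MvPowerSeries.coeff_C_mul]
  · rintro ⟨m, lam⟩ hlam
    rw [Function.mem_support, MvPowerSeries.coeff_C_mul] at hlam
    obtain ⟨k, hk1, _, _, _, hk5⟩ := coeff_qq lam.parts (fun j hj => lam.parts_pos hj) β
    have : (vals β).sum = m := by
      have hk : k ≠ 0 := by
        rintro rfl
        apply hlam
        change cf m lam * MvPowerSeries.coeff β (qq lam.parts) = 0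
        rw [hk1]; simp
      rw [hk5 hk, lam.parts_sum]
    subst this
    rw [Finset.coe_map, Set.mem_image]
    exact ⟨lam, Finset.mem_coe.mpr (Finset.mem_univ _), rfl⟩

lemma symF_L : SymF L := by
  intro n σ
  exact Phi_L_comp _ (vand_X_ne_zero n) σ

lemma canF_L : CanF L := by
  intro n
  apply Phi_L_cons_cons
  apply vand_ne_zero
  have hX0 : (MvPolynomial.X 0 : MvPolynomial (Fin (n+1)) Coef) ≠ -MvPolynomial.X 0 := by
    intro h
    have h2 : (2 : MvPolynomial (Fin (n+1)) Coef) * MvPolynomial.X 0 = 0 := by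
      rw [two_mul]; nth_rewrite 2 [h]; ring
    rcases mul_eq_zero.mp h2 with h3 | h3
    · exact two_ne_zero h3
    · exact MvPolynomial.X_ne_zero 0 h3
  have hXi : ∀ i : Fin n, (MvPolynomial.X i.succ : MvPolynomial (Fin (n+1)) Coef) ≠ MvPolynomial.X 0 := by
    intro i h
    exact (Fin.succ_ne_zero i) (MvPolynomial.X_injective h)
  have hXi' : ∀ i : Fin n, (MvPolynomial.X i.succ : MvPolynomial (Fin (n+1)) Coef) ≠ -MvPolynomial.X 0 := by
    intro i h
    have h2 := congrArg (MvPolynomial.eval (fun j : Fin (n+1) => if j = 0 then (0 : Coef) else 1)) h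
    simp at h2
  intro i j
  refine Fin.cases ?_ (fun i => Fin.cases ?_ (fun i => ?_) i) i
  · refine Fin.cases ?_ (fun j => Fin.cases ?_ (fun j => ?_) j) j
    · intro _; rfl
    · intro h; exact absurd h hX0
    · intro h; exact absurd h.symm (hXi j)
  · refine Fin.cases ?_ (fun j => Fin.cases ?_ (fun j => ?_) j) j
    · intro h; exact absurd h.symm hX0
    · intro _; rfl
    · intro h; exact absurd h.symm (hXi' j)
  · refine Fin.cases ?_ (fun j => Fin.cases ?_ (fun j => ?_) j) j
    · intro h; exact absurd h (hXi i)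
    · intro h; exact absurd h (hXi' i)
    · intro h
      simp only [Fin.cons_succ] at h
      rw [MvPolynomial.X_injective h]

theorem inOdd_L : InOddPowerSums L := inOdd_of symF_L canF_L

end Pool.Agent.HLf6dccc
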