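import Pool.Agent.HLf6dccc.Alg
import Pool.Agent.HLf6dccc.Defs

open Finset

namespace Pool.Agent.HLf6dccc

section lagrange

variable {ι K : Type*} [DecidableEq ι] [Field K]

open Polynomial in
lemma lagrange_id (B : Finset ι) (x : ι → K) (hx : Set.InjOn x B) (hx0 : ∀ i ∈ B, x i ≠ 0) (t : K)
    (ht : t ≠ 1) :
    ∑ p ∈ B, ∏ l ∈ B.erase p, (x p - t * x l) / (x p - x l) = (1 - t ^ B.card) / (1 - t) := by
  have ht' : 1 - t ≠ 0 := sub_ne_zero.mpr ht.symm
  rcases B.eq_empty_or_nonempty with rfl | hB
  · simp
  set m := B.card with hm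
  have hmpos : 0 < m := Finset.card_pos.mpr hB
  set f : K[X] := ∏ l ∈ B, (X - C (t * x l)) with hf
  set g : K[X] := ∏ l ∈ B, (X - C (x l)) with hg
  have hfm : f.Monic := monic_prod_of_monic _ _ fun l _ => monic_X_sub_C _
  have hgm : g.Monic := monic_prod_of_monic _ _ fun l _ => monic_X_sub_C _
  have hfd : f.natDegree = m := by
    rw [hf, natDegree_prod_of_monic _ _ fun l _ => monic_X_sub_C _]
    simp only [natDegree_X_sub_C, Finset.sum_const, smul_eq_mul, mul_one, hm]
  have hgd : g.natDegree = m := by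
    rw [hg, natDegree_prod_of_monic _ _ fun l _ => monic_X_sub_C _]
    simp [hm]
  set q : K[X] := f - C (t ^ m) * g with hq
  have hq0 : q.coeff 0 = 0 := by
    rw [coeff_zero_eq_eval_zero, hq, eval_sub, eval_mul, eval_C, hf, hg, eval_prod, eval_prod]
    simp only [eval_sub, eval_X, eval_C, zero_sub]
    have : ∏ l ∈ B, -(t * x l) = t ^ m * ∏ l ∈ B, -x l := by
      rw [hm, ← Finset.prod_const, ← Finset.prod_mul_distrib]
      refine Finset.prod_congr rfl fun l _ => by ring
    rw [this, sub_self]
  have hqm : q.coeff m = 1 - t ^ m := by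
    rw [hq, coeff_sub, coeff_C_mul]
    have h1 : f.coeff m = 1 := by rw [← hfd]; exact hfm
    have h2 : g.coeff m = 1 := by rw [← hgd]; exact hgm
    rw [h1, h2, mul_one]
  have hqd : q.natDegree ≤ m := by
    refine (natDegree_sub_le _ _).trans (max_le hfd.le ?_)
    exact (natDegree_C_mul_le _ _).trans hgd.le
  set P := q.divX with hP
  have hPd : P.degree < B.card := by
    rw [← hm]
    by_cases hP0 : P = 0
    · rw [hP0, degree_zero]; exact WithBot.bot_lt_coe m
    · rw [degree_eq_natDegree hP0, Nat.cast_lt, hP, natDegree_divX_eq_natDegree_tsub_one]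
      omega
  have h1 := Lagrange.coeff_eq_sum hx hPd
  have h2 : P.coeff (B.card - 1) = 1 - t ^ m := by
    rw [hP, coeff_divX, ← hqm]
    congr 1
    omega
  rw [h2] at h1
  rw [h1, Finset.sum_div]
  refine Finset.sum_congr rfl fun p hp => ?_
  have h3 : x p * P.eval (x p) = q.eval (x p) := by
    have := congrArg (eval (x p)) (divX_mul_X_add q)
    rw [eval_add, eval_mul, eval_X, eval_C, hq0, add_zero] at this
    rw [hP, mul_comm]; exact this
  have h4 : q.eval (x p) = x p * (1 - t) * ∏ l ∈ B.erase p, (x p - t * x l) := by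
    rw [hq, eval_sub, eval_mul, hf, hg, eval_prod, eval_prod]
    simp only [eval_sub, eval_X, eval_C]
    have e1 : ∏ l ∈ B, (x p - x l) = 0 := Finset.prod_eq_zero hp (sub_self _)
    rw [e1, mul_zero, sub_zero, ← Finset.mul_prod_erase _ _ hp]
    ring
  have h5 : P.eval (x p) = (1 - t) * ∏ l ∈ B.erase p, (x p - t * x l) := by
    apply mul_left_cancel₀ (hx0 p hp)
    rw [h3, h4]; ring
  rw [h5, Finset.prod_div_distrib]
  field_simp

end lagrange

section mac

variable {K : Type*} [Field K] {n : ℕ}

/-- one term of the symmetrisation -/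
def FF (lam : Fin n → ℕ) (t : K) (y : Fin n → K) : K :=
  (∏ i, y i ^ lam i) * pairProd (fun i j => (y i - t * y j) / (y i - y j))

/-- term of the coset sum -/
def ratT (x : Fin n → K) (t : K) (α : Fin n → ℕ) : K :=
  (∏ i, x i ^ α i) * ∏ i, ∏ j, if α j < α i then (x i - t * x j) / (x i - x j) else 1

/-- distinct permutations -/
def orb (lam : Fin n → ℕ) : Finset (Fin n → ℕ) :=
  (Finset.univ : Finset (Equiv.Perm (Fin n))).image (fun w i => lam (w i))

lemma mem_orb {lam α : Fin n → ℕ} : α ∈ orb lam ↔ ∃ w : Equiv.Perm (Fin n), lam ∘ w = α := by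
  unfold orb
  rw [Finset.mem_image]
  constructor
  · rintro ⟨w, _, h⟩; exact ⟨w, h⟩
  · rintro ⟨w, h⟩; exact ⟨w, Finset.mem_univ _, h⟩

lemma ratT_comp (x : Fin n → K) (t : K) (α : Fin n → ℕ) (σ : Equiv.Perm (Fin n)) :
    ratT (x ∘ σ) t (α ∘ σ) = ratT x t α := by
  unfold ratT
  congr 1
  · exact Equiv.prod_comp σ (fun i => x i ^ α i)
  · rw [← Equiv.prod_comp σ (fun i => ∏ j, if α j < α i then (x i - t * x j) / (x i - x j) else 1)]
    refine Finset.prod_congr rfl fun i _ => ?_
    exact Equiv.prod_comp σ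
      (fun j => if α j < α (σ i) then (x (σ i) - t * x j) / (x (σ i) - x j) else 1)

lemma FF_cons (lam : Fin (n+1) → ℕ) (t a : K) (y : Fin n → K) :
    FF lam t (Fin.cons a y) = a ^ lam 0 * (∏ j, (a - t * y j) / (a - y j)) *
      FF (fun i => lam i.succ) t y := by
  unfold FF
  rw [pairProd_cons, Fin.prod_univ_succ]
  simp only [Fin.cons_zero, Fin.cons_succ]
  ring

lemma ratT_cons (t a : K) (y : Fin n → K) (r : ℕ) (α : Fin n → ℕ) (hα : ∀ i, α i ≤ r) :
    ratT (Fin.cons a y : Fin (n+1) → K) t (Fin.cons r α : Fin (n+1) → ℕ) =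
      a ^ r * (∏ j, if α j < r then (a - t * y j) / (a - y j) else 1) * ratT y t α := by
  unfold ratT
  rw [Fin.prod_univ_succ, Fin.prod_univ_succ (n := n)
    (f := fun i => ∏ j, if (Fin.cons r α : Fin (n+1) → ℕ) j < (Fin.cons r α : Fin (n+1) → ℕ) i then _ else 1)]
  simp only [Fin.prod_univ_succ (n := n), Fin.cons_zero, Fin.cons_succ, lt_irrefl, if_false, one_mul]
  have : ∀ i, ¬ (r < α i) := fun i => not_lt.mpr (hα i)
  simp only [this, if_false, one_mul]
  ring

lemma vFun_succ (t : K) (k : ℕ) : vFun t (k+1) = vFun t k * ((1 - t ^ (k + 1)) / (1 - t)) := by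
  unfold vFun
  rw [Finset.prod_range_succ]

lemma card_comp (lam : Fin n → ℕ) (w : Equiv.Perm (Fin n)) (k : ℕ) :
    (univ.filter (fun i => (lam ∘ w) i = k)).card = (univ.filter (fun i => lam i = k)).card := by
  refine Finset.card_bij (fun i _ => w i) ?_ ?_ ?_
  · intro i hi
    rw [Finset.mem_filter] at *
    exact ⟨Finset.mem_univ _, hi.2⟩
  · intro i _ j _ h
    exact w.injective h
  · intro j hj
    rw [Finset.mem_filter] at hj
    refine ⟨w.symm j, ?_, w.apply_symm_apply j⟩
    rw [Finset.mem_filter]
    refine ⟨Finset.mem_univ _, ?_⟩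
    simpa using hj.2

lemma sum_perm_succ (t : K) (x : Fin (n+1) → K) (lam : Fin (n+1) → ℕ) :
    ∑ w : Equiv.Perm (Fin (n+1)), FF lam t (x ∘ w) =
      ∑ p : Fin (n+1), x p ^ lam 0 *
        (∏ j : Fin n, (x p - t * x (Equiv.swap 0 p j.succ)) / (x p - x (Equiv.swap 0 p j.succ))) *
        ∑ e : Equiv.Perm (Fin n), FF (fun i => lam i.succ) t
          ((fun i : Fin n => x (Equiv.swap 0 p i.succ)) ∘ e) := by
  rw [Finset.univ_perm_fin_succ, Finset.sum_map, ← Finset.univ_product_univ, Finset.sum_product]
  refine Finset.sum_congr rfl fun p _ => ?_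
  rw [Finset.mul_sum]
  refine Finset.sum_congr rfl fun e _ => ?_
  have h1 : x ∘ (Equiv.Perm.decomposeFin.symm (p, e)) =
      Fin.cons (x p) ((fun i : Fin n => x (Equiv.swap 0 p i.succ)) ∘ e) := by
    funext i
    refine Fin.cases ?_ (fun i => ?_) i
    · simp
    · simp
  rw [Equiv.toEmbedding_apply, h1, FF_cons]
  congr 2
  exact Equiv.prod_comp e (fun j : Fin n => (x p - t * x (Equiv.swap 0 p j.succ)) /
    (x p - x (Equiv.swap 0 p j.succ)))

/-- Macdonald (III.2.1)–(III.2.2): the full symmetrisation equals `v_λ(t)` times the coset sum -/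
theorem sum_FF (t : K) (ht : t ≠ 1) (N : ℕ) : ∀ (n : ℕ) (x : Fin n → K), Function.Injective x →
    (∀ i, x i ≠ 0) → ∀ lam : Fin n → ℕ, Antitone lam → (∀ i, lam i < N) →
    ∑ w : Equiv.Perm (Fin n), FF lam t (x ∘ w) =
      (∏ k ∈ range N, vFun t (univ.filter (fun i => lam i = k)).card) *
        ∑ α ∈ orb lam, ratT x t α := by
  intro n
  induction n with
  | zero =>
    intro x _ _ lam _ _
    have h1 : (univ : Finset (Equiv.Perm (Fin 0))) = {1} := by ext w; simp [Subsingleton.elim w 1]
    have h2 : orb lam = {lam} := by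
      unfold orb
      rw [h1, Finset.image_singleton]
      congr 1
    rw [h1, h2, Finset.sum_singleton, Finset.sum_singleton]
    simp [FF, ratT, pairProd, vFun]
  | succ n ih =>
    intro x hx hx0 lam hlam hN
    rw [sum_perm_succ]
    set lam' : Fin n → ℕ := fun i => lam i.succ with hlam'
    have hanti : Antitone lam' := fun i j hij => hlam (Fin.succ_le_succ_iff.mpr hij)
    have hle : ∀ α ∈ orb lam', ∀ i, α i ≤ lam 0 := by
      intro α hα i
      rw [mem_orb] at hα
      obtain ⟨w, rfl⟩ := hα
      exact hlam (Fin.zero_le _)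
    set V' := ∏ k ∈ range N, vFun t (univ.filter (fun i => lam' i = k)).card with hV'
    have hih : ∀ p : Fin (n+1), ∑ e : Equiv.Perm (Fin n), FF lam' t
          ((fun i : Fin n => x (Equiv.swap 0 p i.succ)) ∘ e) =
        V' * ∑ α ∈ orb lam', ratT (fun i : Fin n => x (Equiv.swap 0 p i.succ)) t α := by
      intro p
      refine ih _ ?_ (fun i => hx0 _) lam' hanti (fun i => hN _)
      intro i j hij
      have := (Equiv.swap 0 p).injective (hx hij)
      exact Fin.succ_injective _ this
    rw [Finset.sum_congr rfl fun p _ => by rw [hih p]]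
    -- the number of maximal entries
    set m := (univ.filter (fun i => lam i = lam 0)).card with hm
    have hcount : ∀ k, (univ.filter (fun i => lam i = k)).card =
        (univ.filter (fun i => lam' i = k)).card + if lam 0 = k then 1 else 0 := by
      intro k
      rw [Finset.card_filter, Finset.card_filter, Fin.sum_univ_succ, add_comm]
    have hV : ∏ k ∈ range N, vFun t (univ.filter (fun i => lam i = k)).card =
        V' * ((1 - t ^ m) / (1 - t)) := by
      have hmem : lam 0 ∈ range N := Finset.mem_range.mpr (hN 0)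
      rw [hV', ← Finset.mul_prod_erase _ _ hmem, ← Finset.mul_prod_erase (range N) _ hmem]
      have e1 : ∏ k ∈ (range N).erase (lam 0), vFun t (univ.filter (fun i => lam i = k)).card =
          ∏ k ∈ (range N).erase (lam 0), vFun t (univ.filter (fun i => lam' i = k)).card := by
        refine Finset.prod_congr rfl fun k hk => ?_
        rw [hcount k, if_neg (fun h => (Finset.mem_erase.mp hk).1 h.symm), add_zero]
      have e2 : m = (univ.filter (fun i => lam' i = lam 0)).card + 1 := by
        rw [hm, hcount, if_pos rfl]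
      rw [e1, ← hm, e2, vFun_succ]
      ring
    rw [hV]
    -- expand `[m]` at each `α`
    have hB : ∀ α ∈ orb lam, (1 - t ^ m) / (1 - t) =
        ∑ p ∈ univ.filter (fun i => α i = lam 0),
          ∏ l ∈ (univ.filter (fun i => α i = lam 0)).erase p, (x p - t * x l) / (x p - x l) := by
      intro α hα
      rw [lagrange_id _ x hx.injOn (fun i _ => hx0 i) t ht]
      rw [mem_orb] at hα
      obtain ⟨w, rfl⟩ := hα
      rw [card_comp]
    have hR : V' * ((1 - t ^ m) / (1 - t)) * ∑ α ∈ orb lam, ratT x t α =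
        V' * ∑ α ∈ orb lam, ∑ p ∈ univ.filter (fun i => α i = lam 0), ratT x t α *
          ∏ l ∈ (univ.filter (fun i => α i = lam 0)).erase p, (x p - t * x l) / (x p - x l) := by
      rw [mul_assoc, Finset.mul_sum]
      congr 1
      refine Finset.sum_congr rfl fun α hα => ?_
      rw [hB α hα, Finset.sum_mul]
      refine Finset.sum_congr rfl fun p _ => mul_comm _ _
    rw [hR]
    have hLe : ∑ p : Fin (n+1), x p ^ lam 0 *
        (∏ j : Fin n, (x p - t * x (Equiv.swap 0 p j.succ)) / (x p - x (Equiv.swap 0 p j.succ))) *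
        (V' * ∑ α ∈ orb lam', ratT (fun i : Fin n => x (Equiv.swap 0 p i.succ)) t α) =
        V' * ∑ p : Fin (n+1), ∑ α ∈ orb lam', x p ^ lam 0 *
        (∏ j : Fin n, (x p - t * x (Equiv.swap 0 p j.succ)) / (x p - x (Equiv.swap 0 p j.succ))) *
        ratT (fun i : Fin n => x (Equiv.swap 0 p i.succ)) t α := by
      rw [Finset.mul_sum]
      refine Finset.sum_congr rfl fun p _ => ?_
      rw [Finset.mul_sum, Finset.mul_sum, Finset.mul_sum]
      refine Finset.sum_congr rfl fun α _ => by ring
    rw [hLe]
    congr 1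
    rw [Finset.sum_sigma', Finset.sum_sigma']
    refine Finset.sum_bij' (fun q _ => (⟨(Fin.cons (lam 0) q.2 : Fin (n+1) → ℕ) ∘ Equiv.swap 0 q.1, q.1⟩ :
        (_ : Fin (n+1) → ℕ) × Fin (n+1)))
      (fun q _ => (⟨q.2, fun i => (q.1 ∘ Equiv.swap 0 q.2) i.succ⟩ : (_ : Fin (n+1)) × (Fin n → ℕ)))
      ?_ ?_ ?_ ?_ ?_
    · rintro ⟨p, α⟩ hq
      rw [Finset.mem_sigma] at *
      simp only at hq ⊢
      refine ⟨?_, ?_⟩
      · rw [mem_orb] at *
        obtain ⟨w, hw⟩ := hq.2
        refine ⟨(Equiv.Perm.decomposeFin.symm (0, w)) * Equiv.swap 0 p, ?_⟩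
        rw [Equiv.Perm.coe_mul, ← Function.comp_assoc]
        congr 1
        funext i
        refine Fin.cases ?_ (fun i => ?_) i
        · simp
        · simp only [Function.comp_apply, Equiv.Perm.decomposeFin_symm_apply_succ, Equiv.swap_self,
            Equiv.refl_apply, Fin.cons_succ]
          rw [← hw]; rfl
      · simp
    · rintro ⟨α, p⟩ hq
      rw [Finset.mem_sigma, Finset.mem_filter] at hq
      rw [Finset.mem_sigma]
      simp only at hq ⊢
      refine ⟨Finset.mem_univ _, ?_⟩
      rw [mem_orb] at *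
      obtain ⟨⟨w, hw⟩, _, hp⟩ := hq
      -- permutation `u = w ∘ swap 0 p`, `lam (u 0) = lam 0`; correct by a swap
      set u : Equiv.Perm (Fin (n+1)) := w * Equiv.swap 0 p with hu
      have hlu : lam ∘ u = α ∘ Equiv.swap 0 p := by
        rw [hu, Equiv.Perm.coe_mul, ← Function.comp_assoc, hw]
      have hu0 : lam (u 0) = lam 0 := by
        have := congrFun hlu 0
        rw [Function.comp_apply, Function.comp_apply, Equiv.swap_apply_left, hp] at this
        exact this
      set u' : Equiv.Perm (Fin (n+1)) := Equiv.swap 0 (u 0) * u with hu'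
      have hlu' : lam ∘ u' = α ∘ Equiv.swap 0 p := by
        rw [← hlu]
        funext i
        rw [Function.comp_apply, Function.comp_apply, hu', Equiv.Perm.mul_apply]
        by_cases h0 : u i = 0
        · rw [h0, Equiv.swap_apply_left, hu0]
        · by_cases h1 : u i = u 0
          · rw [h1, Equiv.swap_apply_right, hu0]
          · rw [Equiv.swap_apply_of_ne_of_ne h0 h1]
      obtain ⟨⟨r, w'⟩, hq⟩ := Equiv.Perm.decomposeFin.symm.surjective u'
      have hr : r = 0 := by
        have h1 : u' 0 = 0 := by rw [hu', Equiv.Perm.mul_apply, Equiv.swap_apply_right]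
        rw [← hq, Equiv.Perm.decomposeFin_symm_apply_zero] at h1
        exact h1
      subst hr
      refine ⟨w', ?_⟩
      funext i
      have h2 := congrFun hlu' i.succ
      rw [Function.comp_apply, ← hq, Equiv.Perm.decomposeFin_symm_apply_succ, Equiv.swap_self,
        Equiv.refl_apply] at h2
      exact h2
    · rintro ⟨p, α⟩ _
      simp only
      congr 1
      funext i
      simp
    · rintro ⟨α, p⟩ hq
      rw [Finset.mem_sigma, Finset.mem_filter] at hq
      simp only at hq ⊢
      congr 1
      funext i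
      have : i = Equiv.swap 0 p (Equiv.swap 0 p i) := by simp
      rw [Function.comp_apply]
      conv_rhs => rw [this]
      generalize Equiv.swap 0 p i = k
      refine Fin.cases ?_ (fun k => ?_) k
      · simp [hq.2.2]
      · simp
    · rintro ⟨p, α⟩ hq
      rw [Finset.mem_sigma] at hq
      simp only at hq ⊢
      have hle' := hle α hq.2
      have h1 : ratT x t ((Fin.cons (lam 0) α : Fin (n+1) → ℕ) ∘ Equiv.swap 0 p) =
          x p ^ lam 0 * (∏ j : Fin n, if α j < lam 0 then
            (x p - t * x (Equiv.swap 0 p j.succ)) / (x p - x (Equiv.swap 0 p j.succ)) else 1) *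
            ratT (fun i : Fin n => x (Equiv.swap 0 p i.succ)) t α := by
        have e1 : x = (x ∘ Equiv.swap 0 p) ∘ Equiv.swap 0 p := by funext i; simp
        conv_lhs => rw [e1]
        rw [ratT_comp]
        have e2 : x ∘ Equiv.swap 0 p = Fin.cons (x p) (fun i : Fin n => x (Equiv.swap 0 p i.succ)) := by
          funext i
          refine Fin.cases ?_ (fun i => ?_) i
          · simp
          · simp
        rw [e2, ratT_cons _ _ _ _ _ hle']
      have h2 : ∏ l ∈ (univ.filter (fun i => ((Fin.cons (lam 0) α : Fin (n+1) → ℕ) ∘ Equiv.swap 0 p) i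
            = lam 0)).erase p, (x p - t * x l) / (x p - x l) =
          ∏ j : Fin n, if α j = lam 0 then
            (x p - t * x (Equiv.swap 0 p j.succ)) / (x p - x (Equiv.swap 0 p j.succ)) else 1 := by
        rw [← Finset.prod_filter]
        symm
        refine Finset.prod_bij (fun j _ => Equiv.swap 0 p j.succ) ?_ ?_ ?_ ?_
        · intro j hj
          rw [Finset.mem_filter] at hj
          rw [Finset.mem_erase, Finset.mem_filter]
          refine ⟨?_, Finset.mem_univ _, ?_⟩
          · intro h
            have : Equiv.swap 0 p (Equiv.swap 0 p j.succ) = Equiv.swap 0 p p := by rw [h]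
            rw [Equiv.swap_apply_self, Equiv.swap_apply_right] at this
            exact Fin.succ_ne_zero j this
          · simp [hj.2]
        · intro j _ j' _ h
          exact Fin.succ_injective _ ((Equiv.swap 0 p).injective h)
        · intro l hl
          rw [Finset.mem_erase, Finset.mem_filter] at hl
          obtain ⟨hlp, _, hl⟩ := hl
          have hne : Equiv.swap 0 p l ≠ 0 := by
            intro h
            have : Equiv.swap 0 p (Equiv.swap 0 p l) = Equiv.swap 0 p 0 := by rw [h]
            rw [Equiv.swap_apply_self, Equiv.swap_apply_left] at this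
            exact hlp this
          obtain ⟨j, hj⟩ := Fin.exists_succ_eq.mpr hne
          refine ⟨j, ?_, ?_⟩
          · rw [Finset.mem_filter]
            refine ⟨Finset.mem_univ _, ?_⟩
            rw [Function.comp_apply, ← hj, Fin.cons_succ] at hl
            exact hl
          · rw [hj]; simp
        · intro j _; rfl
      rw [h1, h2]
      have h3 : ∏ j : Fin n, (x p - t * x (Equiv.swap 0 p j.succ)) / (x p - x (Equiv.swap 0 p j.succ)) =
          (∏ j : Fin n, if α j < lam 0 then
            (x p - t * x (Equiv.swap 0 p j.succ)) / (x p - x (Equiv.swap 0 p j.succ)) else 1) *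
          ∏ j : Fin n, if α j = lam 0 then
            (x p - t * x (Equiv.swap 0 p j.succ)) / (x p - x (Equiv.swap 0 p j.succ)) else 1 := by
        rw [← Finset.prod_mul_distrib]
        refine Finset.prod_congr rfl fun j _ => ?_
        rcases (hle' j).lt_or_eq with h | h
        · rw [if_pos h, if_neg h.ne, mul_one]
        · rw [if_neg (not_lt.mpr h.ge), if_pos h, one_mul]
      rw [h3]; ring

end mac

end Pool.Agent.HLf6dccc
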