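import Pool.Agent.HLf6dccc.Series
import Pool.Agent.HLf6dccc.Mac

open Finset

namespace Pool.Agent.HLf6dccc

open MvPolynomial

lemma row_antitone {m : ℕ} (lam : Nat.Partition m) (n : ℕ) :
    Antitone (fun i : Fin n => row lam i) := by
  intro i j hij
  simp only [row]
  have hs : (lam.parts.sort (· ≥ ·)).Pairwise (· ≥ ·) := Multiset.pairwise_sort _ _
  by_cases hj : (j : ℕ) < (lam.parts.sort (· ≥ ·)).length
  · have hi : (i : ℕ) < (lam.parts.sort (· ≥ ·)).length := lt_of_le_of_lt (by exact_mod_cast hij) hj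
    rw [List.getD_eq_getElem _ _ hj, List.getD_eq_getElem _ _ hi]
    rcases eq_or_lt_of_le hij with h | h
    · subst h; exact le_rfl
    · exact List.pairwise_iff_getElem.mp hs i j hi hj (by exact_mod_cast h)
  · rw [List.getD_eq_default _ _ (not_lt.mp hj)]
    exact Nat.zero_le _

lemma row_le {m : ℕ} (lam : Nat.Partition m) (i : ℕ) : row lam i < m + 1 := by
  unfold row
  by_cases hi : i < (lam.parts.sort (· ≥ ·)).length
  · rw [List.getD_eq_getElem _ _ hi]
    have hmem : (lam.parts.sort (· ≥ ·))[i] ∈ lam.parts := by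
      rw [← Multiset.mem_sort (r := (· ≥ ·))]
      exact List.getElem_mem hi
    have := Multiset.single_le_sum (fun x _ => Nat.zero_le x) _ hmem
    rw [lam.parts_sum] at this
    omega
  · rw [List.getD_eq_default _ _ (not_lt.mp hi)]
    omega

section

variable (n : ℕ)

/-- the indeterminate `t` in the fraction field -/
noncomputable abbrev tt : FractionRing (MvPolynomial (Fin n) (Polynomial ℤ)) :=
  algebraMap (MvPolynomial (Fin n) (Polynomial ℤ)) _ (MvPolynomial.C Polynomial.X)

lemma tt_pow_ne_one (k : ℕ) (hk : k ≠ 0) : (tt n) ^ k ≠ 1 := by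
  intro h
  have h1 : algebraMap (MvPolynomial (Fin n) (Polynomial ℤ)) (FractionRing (MvPolynomial (Fin n) (Polynomial ℤ)))
      (MvPolynomial.C (Polynomial.X ^ k)) = algebraMap (MvPolynomial (Fin n) (Polynomial ℤ)) _ (MvPolynomial.C 1) := by
    rw [map_pow, map_pow, map_one, map_one]
    exact h
  have h2 := MvPolynomial.C_injective _ _ (IsFractionRing.injective _ _ h1)
  have h3 := congrArg Polynomial.natDegree h2
  rw [Polynomial.natDegree_X_pow, Polynomial.natDegree_one] at h3
  exact hk h3

lemma vFun_ne_zero (k : ℕ) : vFun (tt n) k ≠ 0 := by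
  unfold vFun
  refine Finset.prod_ne_zero_iff.mpr fun i _ => div_ne_zero ?_ ?_
  · exact sub_ne_zero.mpr (tt_pow_ne_one n (i+1) (Nat.succ_ne_zero i)).symm
  · have := tt_pow_ne_one n 1 one_ne_zero
    rw [pow_one] at this
    exact sub_ne_zero.mpr this.symm

end

/-- Macdonald (III.2.2) -/
lemma hlRat_eq {m : ℕ} (lam : Nat.Partition m) (n : ℕ) :
    hlRat lam n = ∑ α ∈ orb (fun i : Fin n => row lam i), ratT
      (fun i : Fin n => algebraMap (MvPolynomial (Fin n) (Polynomial ℤ))
        (FractionRing (MvPolynomial (Fin n) (Polynomial ℤ))) (X i)) (tt n) α := by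
  have hx : Function.Injective (fun i : Fin n => algebraMap (MvPolynomial (Fin n) (Polynomial ℤ))
        (FractionRing (MvPolynomial (Fin n) (Polynomial ℤ))) (X i)) := by
    intro i j hij
    exact MvPolynomial.X_injective (IsFractionRing.injective _ _ hij)
  have hx0 : ∀ i : Fin n, algebraMap (MvPolynomial (Fin n) (Polynomial ℤ))
        (FractionRing (MvPolynomial (Fin n) (Polynomial ℤ))) (X i) ≠ 0 := by
    intro i h
    rw [← map_zero (algebraMap (MvPolynomial (Fin n) (Polynomial ℤ))
        (FractionRing (MvPolynomial (Fin n) (Polynomial ℤ))))] at h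
    exact MvPolynomial.X_ne_zero i (IsFractionRing.injective _ _ h)
  have ht : tt n ≠ 1 := by
    have := tt_pow_ne_one n 1 one_ne_zero
    rwa [pow_one] at this
  have h := sum_FF (tt n) ht (m+1) n _ hx hx0 (fun i : Fin n => row lam i) (row_antitone lam n)
    (fun i => row_le lam i)
  have hV : (∏ k ∈ range (m+1), vFun (tt n) (univ.filter (fun i : Fin n => row lam i = k)).card) ≠ 0 :=
    Finset.prod_ne_zero_iff.mpr fun k _ => vFun_ne_zero n _
  unfold hlRat
  simp only
  rw [inv_mul_eq_iff_eq_mul₀ hV, ← h]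
  rfl

lemma vand_mul_hlRat {m : ℕ} (lam : Nat.Partition m) (n : ℕ) (h : lam.parts.card ≤ n) :
    vand (fun i : Fin n => algebraMap (MvPolynomial (Fin n) (Polynomial ℤ))
      (FractionRing (MvPolynomial (Fin n) (Polynomial ℤ))) (X i)) * hlRat lam n =
    algebraMap (MvPolynomial (Fin n) (Polynomial ℤ)) _
      (numer n lam.parts X (C (Polynomial.X : Polynomial ℤ))) := by
  rw [hlRat_eq]
  unfold orb
  rw [image_eq_Rearr lam h, map_numer, Finset.mul_sum]
  unfold numer ratT
  refine Finset.sum_congr rfl fun α _ => ?_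
  apply vand_mul_ratTerm
  intro i j hij
  exact MvPolynomial.X_injective (IsFractionRing.injective _ _ hij)

lemma algebraMap_hlPoly {m : ℕ} (lam : Nat.Partition m) (n : ℕ) (h : lam.parts.card ≤ n) :
    algebraMap (MvPolynomial (Fin n) (Polynomial ℤ))
      (FractionRing (MvPolynomial (Fin n) (Polynomial ℤ)))
      (hlPoly (Polynomial.X : Polynomial ℤ) lam.parts n) = hlRat lam n := by
  have h1 := vand_mul_hlRat lam n h
  rw [hlPoly_spec, map_mul, map_vand] at h1
  have hv : vand (fun i : Fin n => algebraMap (MvPolynomial (Fin n) (Polynomial ℤ))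
      (FractionRing (MvPolynomial (Fin n) (Polynomial ℤ))) (X i)) ≠ 0 := by
    apply vand_ne_zero
    intro i j hij
    exact MvPolynomial.X_injective (IsFractionRing.injective _ _ hij)
  exact (mul_left_cancel₀ hv h1).symm

theorem isHallLittlewoodP_iff {m : ℕ} (lam : Nat.Partition m)
    (P : MvPowerSeries ℕ (Polynomial ℤ)) :
    IsHallLittlewoodP lam P ↔ P = hlSeries (Polynomial.X : Polynomial ℤ) lam.parts := by
  constructor
  · intro h
    ext β : 1
    set n := max lam.parts.card (bd β) with hn
    obtain ⟨p, hp1, hp2⟩ := h n (le_max_left _ _)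
    rw [← algebraMap_hlPoly lam n (le_max_left _ _)] at hp2
    have hp3 := IsFractionRing.injective _ _ hp2
    have hβ : ∀ i ≥ n, β i = 0 := fun i hi => bd_spec β i (le_trans (le_max_right _ _) hi)
    have h1 : ∀ Q : MvPowerSeries ℕ (Polynomial ℤ), MvPowerSeries.coeff β Q =
        MvPowerSeries.coeff (restr n β) (MvPowerSeries.killCompl Fin.valEmbedding Q) := by
      intro Q
      rw [MvPowerSeries.coeff_killCompl, embDomain_restr n β hβ]
    rw [h1 P, h1 (hlSeries _ _), killCompl_hlSeries, ← hp1, hp3]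
  · rintro rfl n hn
    exact ⟨hlPoly Polynomial.X lam.parts n, (killCompl_hlSeries _ _ n).symm,
      algebraMap_hlPoly lam n hn⟩

theorem hallLittlewoodP_eq {m : ℕ} (lam : Nat.Partition m) :
    hallLittlewoodP lam = hlSeries (Polynomial.X : Polynomial ℤ) lam.parts := by
  have h : ∃ P, IsHallLittlewoodP lam P := ⟨_, (isHallLittlewoodP_iff lam _).mpr rfl⟩
  unfold hallLittlewoodP
  rw [dif_pos h]
  exact (isHallLittlewoodP_iff lam _).mp h.choose_spec

end Pool.Agent.HLf6dccc
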