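import Pool.Agent.HLf6dccc.WId

open Finset

namespace Pool.Agent.HLf6dccc

lemma omega2_one : omega2 1 = a * c := by simp [omega2, wA, wB]

lemma omega2_add_two (r : ℕ) : omega2 (r + 2) = a * b * c * d * omega2 r := by
  unfold omega2 wA wB
  have h1 : (r + 2 + 1) / 2 = (r + 1) / 2 + 1 := by omega
  have h2 : (r + 2) / 2 = r / 2 + 1 := by omega
  rw [h1, h2, pow_succ, pow_succ, pow_succ, pow_succ]
  ring

section inv

variable {n : ℕ} {K : Type*} [CommRing K] [IsDomain K] [Algebra Coef K]

/-- the correction factor -/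
noncomputable def GG (z : K) : PowerSeries K :=
  PowerSeries.mk fun k => if Even k then algebraMap Coef K (omega2 (k / 2)) * (-z ^ 2) ^ (k / 2) else 0

lemma GG_mul (z : K) : GG z * (1 - PowerSeries.C (algebraMap Coef K (a * b * c * d) * z ^ 4) * PowerSeries.X ^ 4) =
    1 - PowerSeries.C (algebraMap Coef K (a * c) * z ^ 2) * PowerSeries.X ^ 2 := by
  ext k
  rw [mul_sub, mul_one, map_sub, mul_left_comm, PowerSeries.coeff_C_mul,
    PowerSeries.coeff_mul_X_pow', map_sub, PowerSeries.coeff_C_mul, PowerSeries.coeff_X_pow,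
    PowerSeries.coeff_one]
  unfold GG
  rw [PowerSeries.coeff_mk]
  by_cases hk : Even k
  · obtain ⟨r, hr⟩ := hk
    have hr' : k = 2 * r := by omega
    subst hr'
    have e1 : Even (2 * r) := even_two_mul r
    have e2 : 2 * r / 2 = r := by omega
    rw [if_pos e1, e2]
    match r with
    | 0 => simp [omega2_zero]
    | 1 =>
      rw [omega2_one]
      simp
    | (r + 2) =>
      have h4 : 4 ≤ 2 * (r + 2) := by omega
      rw [if_pos h4, PowerSeries.coeff_mk]
      have h5 : 2 * (r + 2) - 4 = 2 * r := by omega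
      rw [h5, if_pos (even_two_mul r)]
      have h6 : 2 * r / 2 = r := by omega
      rw [h6, omega2_add_two, map_mul]
      have h7 : ¬ (2 * (r + 2) = 0) := by omega
      have h8 : ¬ (2 * (r + 2) = 2) := by omega
      rw [if_neg h7, if_neg h8, pow_add]
      ring
  · rw [if_neg hk]
    have h1 : ¬ k = 0 := by rintro rfl; exact hk (by simp)
    have h2 : ¬ k = 2 := by rintro rfl; exact hk (by simp)
    rw [if_neg h1, if_neg h2]
    split_ifs with h3
    · rw [PowerSeries.coeff_mk, if_neg]
      · simp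
      · intro h
        apply hk
        rw [Nat.even_sub h3] at h
        exact h.mpr (by decide)
    · simp

lemma Phi_w_cons_cons (x : Fin n → K) (z : K)
    (h0 : vand (Fin.cons z (Fin.cons (-z) x : Fin (n+1) → K) : Fin (n+2) → K) ≠ 0) :
    Phi (Fin.cons z (Fin.cons (-z) x : Fin (n+1) → K) : Fin (n+2) → K) w = GG z * Phi x w := by
  ext e
  apply mul_left_cancel₀ h0
  rw [vand_coeff_w, SS_cons_cons, antidiag_double (fun r l => algebraMap Coef K (omega2 r) * (-z ^ 2) ^ r * SS x l),
    vand_cons_cons, PowerSeries.coeff_mul, Finset.mul_sum, Finset.mul_sum]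
  refine Finset.sum_congr rfl fun k _ => ?_
  unfold GG
  rw [PowerSeries.coeff_mk, ← vand_coeff_w]
  split_ifs
  · ring
  · ring

lemma Phi_w_comp (y : Fin n → K) (h0 : vand y ≠ 0) (σ : Equiv.Perm (Fin n)) :
    Phi (y ∘ σ) w = Phi y w := by
  ext e
  have hs : ((Equiv.Perm.sign σ : ℤ) : K) ≠ 0 := by
    rcases Int.units_eq_one_or (Equiv.Perm.sign σ) with h | h <;> simp [h]
  have h1 := vand_coeff_w (y ∘ σ) e
  rw [SS_comp, vand_comp, ← vand_coeff_w] at h1
  apply mul_left_cancel₀ (mul_ne_zero hs h0)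
  rw [h1]; ring

lemma constantCoeff_w : MvPowerSeries.constantCoeff w = 1 := by
  have h1 := coeff_Phi_X (n := 0) w 0
  rw [Finsupp.embDomain_zero, MvPowerSeries.coeff_zero_eq_constantCoeff_apply] at h1
  rw [← h1]
  have h2 := vand_coeff_w (MvPolynomial.X : Fin 0 → MvPolynomial (Fin 0) Coef) 0
  have h3 : vand (MvPolynomial.X : Fin 0 → MvPolynomial (Fin 0) Coef) = 1 := by
    simp [vand, pairProd]
  rw [h3, one_mul] at h2
  have h4 : ∑ i : Fin 0, (0 : Fin 0 →₀ ℕ) i = 0 := by simp
  rw [h4, h2]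
  unfold SS
  have h5 : piAntidiag (univ : Finset (Fin 0)) 0 = {0} := by
    ext α
    simp only [Finset.mem_piAntidiag, Finset.mem_singleton]
    constructor
    · intro _; exact Subsingleton.elim _ _
    · rintro rfl; simp
  rw [h5, Finset.sum_singleton]
  have h6 : termN (MvPolynomial.X : Fin 0 → MvPolynomial (Fin 0) Coef) (-1) 0 = 1 := by
    simp [termN, pairProd]
  have h7 : omegaM (nz (0 : Fin 0 → ℕ)) = 1 := by
    have : nz (0 : Fin 0 → ℕ) = 0 := rfl
    rw [this]
    simp [omegaM, alt]
  rw [h6, h7]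
  simp

lemma Phi_w_const (y : Fin n → K) : PowerSeries.constantCoeff (Phi y w) = 1 := by
  rw [← PowerSeries.coeff_zero_eq_constantCoeff_apply, coeff_Phi]
  have : (univ : Finset (Fin n)).finsuppAntidiag 0 = {0} := by
    ext γ
    simp
  rw [this, Finset.sum_singleton, Finsupp.embDomain_zero,
    MvPowerSeries.coeff_zero_eq_constantCoeff_apply, constantCoeff_w]
  simp

/-- coefficient function of the correction -/
noncomputable def kap (n : ℕ) : Coef :=
  if Odd n then (1 / (2 * n) : ℚ) • (a ^ n * c ^ n)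
  else if 2 ≤ n then (1 / (2 * n) : ℚ) • (a ^ (n / 2) * c ^ (n / 2) *
          (a ^ (n / 2) * c ^ (n / 2) - 2 * (b ^ (n / 2) * d ^ (n / 2)))) else 0

/-- the correction -/
noncomputable def corr : MvPowerSeries ℕ Coef :=
  formalSum fun n : ℕ => MvPowerSeries.C (kap n) * psum (2 * n)

lemma psum_eq (k : ℕ) : psum k = psumG Coef k := rfl

open scoped Classical in
lemma coeff_C_mul_psum (x : Coef) (k : ℕ) (hk : k ≠ 0) (β : ℕ →₀ ℕ) :
    MvPowerSeries.coeff β (MvPowerSeries.C x * psum k) =
      if ∃ i, β = Finsupp.single i k then x else 0 := by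
  rw [MvPowerSeries.coeff_C_mul, psum_eq, coeff_psumG k hk]
  split_ifs <;> simp

lemma deg_of_coeff_ne (x : Coef) (k : ℕ) (hk : k ≠ 0) (β : ℕ →₀ ℕ)
    (h : MvPowerSeries.coeff β (MvPowerSeries.C x * psum k) ≠ 0) :
    (β.sum fun _ k => k) = k := by
  classical
  rw [coeff_C_mul_psum x k hk β] at h
  split_ifs at h with h1
  · obtain ⟨i, hi⟩ := h1
    rw [hi]; simp
  · exact absurd rfl h

lemma coeff_formal_kap (κ : ℕ → Coef) (h0 : κ 0 = 0) (β : ℕ →₀ ℕ) :
    MvPowerSeries.coeff β (formalSum fun n : ℕ => MvPowerSeries.C (κ n) * psum (2 * n)) =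
      MvPowerSeries.coeff β (MvPowerSeries.C (κ ((β.sum fun _ k => k) / 2)) *
        psum (2 * ((β.sum fun _ k => k) / 2))) := by
  change ∑ᶠ n, MvPowerSeries.coeff β (MvPowerSeries.C (κ n) * psum (2 * n)) = _
  rw [finsum_eq_single]
  intro n hn
  by_contra h
  by_cases hn0 : n = 0
  · subst hn0
    rw [h0] at h
    apply h
    simp
  · have := deg_of_coeff_ne (κ n) (2 * n) (by omega) β h
    apply hn
    omega

lemma L_eq : L = logW + corr := by
  unfold L
  rw [add_assoc]
  congr 1
  ext β : 1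
  rw [map_add]
  have e1 : (formalSum (fun n : ℕ => if Odd n then
        MvPowerSeries.C ((1 / (2 * n) : ℚ) • (a ^ n * c ^ n)) * psum (2 * n) else 0)) =
      formalSum (fun n : ℕ => MvPowerSeries.C (if Odd n then ((1 / (2 * n) : ℚ) • (a ^ n * c ^ n)) else 0)
        * psum (2 * n)) := by
    congr 1
    funext n
    split_ifs <;> simp
  have e2 : formalSum (fun n : ℕ => if Even n ∧ 2 ≤ n then
        MvPowerSeries.C ((1 / (2 * n) : ℚ) • (a ^ (n / 2) * c ^ (n / 2) *
          (a ^ (n / 2) * c ^ (n / 2) - 2 * (b ^ (n / 2) * d ^ (n / 2))))) * psum (2 * n) else 0) =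
      formalSum (fun n : ℕ => MvPowerSeries.C (if Even n ∧ 2 ≤ n then ((1 / (2 * n) : ℚ) • (a ^ (n / 2) * c ^ (n / 2) *
          (a ^ (n / 2) * c ^ (n / 2) - 2 * (b ^ (n / 2) * d ^ (n / 2))))) else 0) * psum (2 * n)) := by
    congr 1
    funext n
    split_ifs <;> simp
  rw [e1, e2]
  unfold corr
  rw [coeff_formal_kap, coeff_formal_kap, coeff_formal_kap, ← map_add, ← add_mul, ← map_add]
  · congr 3
    unfold kap
    set m := (β.sum fun _ k => k) / 2
    by_cases h1 : Odd m
    · have h2 : ¬ Even m := Nat.not_even_iff_odd.mpr h1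
      rw [if_pos h1, if_neg (fun h => h2 h.1), if_pos h1, add_zero]
    · have h2 : Even m := Nat.not_odd_iff_even.mp h1
      rw [if_neg h1, if_neg h1, zero_add]
      by_cases h3 : 2 ≤ m
      · rw [if_pos ⟨h2, h3⟩, if_pos h3]
      · rw [if_neg (fun h => h3 h.2), if_neg h3]
  · simp [kap]
  · simp
  · simp

lemma coeff_Phi_corr (y : Fin n → K) (e : ℕ) :
    PowerSeries.coeff e (Phi y corr) =
      if Even e ∧ e ≠ 0 then algebraMap Coef K (kap (e / 2)) * ∑ i, y i ^ e else 0 := by
  classical
  by_cases he : e = 0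
  · subst he
    rw [if_neg (fun h => h.2 rfl), coeff_Phi]
    refine Finset.sum_eq_zero fun γ hγ => ?_
    rw [Finset.mem_finsuppAntidiag] at hγ
    have h1 : ((Finsupp.embDomain Fin.valEmbedding γ).sum fun _ k => k) = 0 := by
      rw [Finsupp.sum_embDomain, Finsupp.sum_fintype _ _ (by simp)]
      exact hγ.1
    unfold corr
    rw [coeff_formal_kap kap (by simp [kap]), h1]
    have : kap (0 / 2) = 0 := by simp [kap]
    rw [this]
    simp
  · by_cases hev : Even e
    · rw [if_pos ⟨hev, he⟩]
      apply coeff_Phi_of_psum y corr _ e he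
      intro β hβ
      unfold corr
      rw [coeff_formal_kap kap (by simp [kap]), hβ]
      have : 2 * (e / 2) = e := Nat.two_mul_div_two_of_even hev
      rw [this, coeff_C_mul_psum _ _ he]
    · rw [if_neg (fun h => hev h.1), coeff_Phi]
      refine Finset.sum_eq_zero fun γ hγ => ?_
      rw [Finset.mem_finsuppAntidiag] at hγ
      have h1 : ((Finsupp.embDomain Fin.valEmbedding γ).sum fun _ k => k) = e := by
        rw [Finsupp.sum_embDomain, Finsupp.sum_fintype _ _ (by simp)]
        exact hγ.1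
      have h2 : MvPowerSeries.coeff (Finsupp.embDomain Fin.valEmbedding γ) corr = 0 := by
        unfold corr
        rw [coeff_formal_kap kap (by simp [kap]), h1]
        by_contra h
        have h3 : 2 * (e / 2) ≠ 0 := by
          intro h0
          have : e / 2 = 0 := by omega
          rw [this] at h
          have hk : kap 0 = 0 := by simp [kap]
          rw [hk] at h
          simp at h
        have := deg_of_coeff_ne _ _ h3 _ h
        rw [h1] at this
        exact hev ⟨e / 2, by omega⟩
      rw [h2, map_zero, zero_mul]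

end inv

end Pool.Agent.HLf6dccc
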