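import Pool.Agent.HLf6dccc.Inv

open Finset

namespace Pool.Agent.HLf6dccc

section linv

variable {n : ℕ} {K : Type*} [CommRing K] [IsDomain K] [Algebra Coef K]
  [Algebra ℚ K] [IsAddTorsionFree K]

lemma Phi_logW (y : Fin n → K) : Phi y logW = plog (Phi y w) :=
  Phi_log y w constantCoeff_w

lemma Phi_L_comp (y : Fin n → K) (h0 : vand y ≠ 0) (σ : Equiv.Perm (Fin n)) :
    Phi (y ∘ σ) L = Phi y L := by
  have hc : Phi (y ∘ σ) corr = Phi y corr := by
    ext e
    rw [coeff_Phi_corr, coeff_Phi_corr]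
    have : ∑ i, (y ∘ σ) i ^ e = ∑ i, y i ^ e := Equiv.sum_comp σ (fun i => y i ^ e)
    rw [this]
  rw [L_eq, map_add, map_add, Phi_logW, Phi_logW, Phi_w_comp y h0 σ, hc]

lemma kap_rel (m : ℕ) (z : K) (hm : m ≠ 0) :
    2 * algebraMap Coef K (kap m) * z ^ (2 * m) =
      algebraMap ℚ K (1 / ((m : ℕ) : ℚ)) * (algebraMap Coef K (a * c) * z ^ 2) ^ m -
      (if 4 ∣ 2 * m then algebraMap ℚ K (1 / ((2 * m / 4 : ℕ) : ℚ)) *
        (algebraMap Coef K (a * b * c * d) * z ^ 4) ^ (2 * m / 4) else 0) := by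
  have hsm : ∀ (q : ℚ) (f : Coef), algebraMap Coef K (q • f) = algebraMap ℚ K q * algebraMap Coef K f := by
    intro q f
    rw [Algebra.smul_def, map_mul]
    congr 1
    exact (algebraMap Coef K).map_rat_algebraMap _
  have h2 : (2 : K) = algebraMap ℚ K 2 := (map_ofNat (algebraMap ℚ K) 2).symm
  unfold kap
  by_cases h1 : Odd m
  · rw [if_pos h1, if_neg]
    · rw [hsm, sub_zero, h2]
      have h3 : algebraMap ℚ K 2 * (algebraMap ℚ K (1 / (2 * (m : ℚ))) * algebraMap Coef K (a ^ m * c ^ m)) =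
          algebraMap ℚ K (1 / (m : ℚ)) * algebraMap Coef K (a ^ m * c ^ m) := by
        rw [← mul_assoc, ← map_mul]
        congr 2
        field_simp
      rw [h3, mul_pow, ← map_pow, ← pow_mul, mul_pow, mul_assoc]
    · rintro ⟨k, hk⟩
      obtain ⟨j, hj⟩ := h1
      omega
  · rw [if_neg h1]
    obtain ⟨j, hj⟩ := Nat.not_odd_iff_even.mp h1
    have hj' : m = 2 * j := by omega
    subst hj'
    have hj0 : j ≠ 0 := by omega
    have e1 : 2 * j / 2 = j := by omega
    have e2 : 2 * (2 * j) / 4 = j := by omega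
    rw [if_pos (by omega), if_pos ⟨j, by ring⟩, e1, e2, hsm, h2]
    have h3 : ∀ f : K, algebraMap ℚ K 2 * (algebraMap ℚ K (1 / (2 * ((2 * j : ℕ) : ℚ))) * f) =
        algebraMap ℚ K (1 / ((2 * j : ℕ) : ℚ)) * f := by
      intro f
      rw [← mul_assoc, ← map_mul]
      congr 2
      push_cast
      field_simp
    rw [h3]
    have h4 : algebraMap ℚ K (1 / (j : ℚ)) = algebraMap ℚ K (1 / ((2 * j : ℕ) : ℚ)) * 2 := by
      rw [h2, ← map_mul]
      congr 1
      push_cast
      field_simp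
    rw [h4]
    simp only [map_mul, map_sub, map_pow, map_ofNat]
    ring

lemma Phi_L_cons_cons (x : Fin n → K) (z : K)
    (h0 : vand (Fin.cons z (Fin.cons (-z) x : Fin (n+1) → K) : Fin (n+2) → K) ≠ 0) :
    Phi (Fin.cons z (Fin.cons (-z) x : Fin (n+1) → K) : Fin (n+2) → K) L = Phi x L := by
  set q : K := algebraMap Coef K (a * b * c * d) * z ^ 4 with hq
  set s : K := algebraMap Coef K (a * c) * z ^ 2 with hs
  have h1 : Phi (Fin.cons z (Fin.cons (-z) x : Fin (n+1) → K) : Fin (n+2) → K) w *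
      (1 - PowerSeries.C q * PowerSeries.X ^ 4) =
      (1 - PowerSeries.C s * PowerSeries.X ^ 2) * Phi x w := by
    rw [Phi_w_cons_cons x z h0, mul_right_comm, GG_mul]
  have c4 : PowerSeries.constantCoeff (1 - PowerSeries.C q * PowerSeries.X ^ 4) = 1 := by simp
  have c2 : PowerSeries.constantCoeff (1 - PowerSeries.C s * PowerSeries.X ^ 2) = 1 := by simp
  have h2 := congrArg plog h1
  rw [plog_mul (Phi_w_const _) c4, plog_mul c2 (Phi_w_const _)] at h2
  rw [L_eq, map_add, map_add, Phi_logW, Phi_logW]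
  have h3 : plog (Phi (Fin.cons z (Fin.cons (-z) x : Fin (n+1) → K) : Fin (n+2) → K) w) =
      plog (1 - PowerSeries.C s * PowerSeries.X ^ 2) + plog (Phi x w) -
      plog (1 - PowerSeries.C q * PowerSeries.X ^ 4) := by
    rw [← h2]; ring
  rw [h3]
  have h4 : Phi (Fin.cons z (Fin.cons (-z) x : Fin (n+1) → K) : Fin (n+2) → K) corr =
      Phi x corr + plog (1 - PowerSeries.C q * PowerSeries.X ^ 4) -
      plog (1 - PowerSeries.C s * PowerSeries.X ^ 2) := by
    ext e
    rw [map_sub, map_add, coeff_Phi_corr, coeff_Phi_corr, coeff_plog_one_sub _ 4 (by norm_num),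
      coeff_plog_one_sub _ 2 (by norm_num)]
    by_cases he : Even e ∧ e ≠ 0
    · rw [if_pos he, if_pos he]
      obtain ⟨⟨m, hm⟩, he0⟩ := he
      have hm' : e = 2 * m := by omega
      subst hm'
      have hm0 : m ≠ 0 := by omega
      have e1 : 2 * m / 2 = m := by omega
      have e2 : (2 ∣ 2 * m ∧ 2 * m ≠ 0) := ⟨dvd_mul_right _ _, he0⟩
      rw [if_pos e2, e1]
      have h5 := kap_rel m z hm0
      rw [← hq, ← hs] at h5
      rw [Fin.sum_univ_succ, Fin.sum_univ_succ]
      simp only [Fin.cons_zero, Fin.cons_succ]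
      have h6 : (-z) ^ (2 * m) = z ^ (2 * m) := by rw [pow_mul, neg_sq, ← pow_mul]
      rw [h6]
      have h7 : algebraMap Coef K (kap m) * (z ^ (2 * m) + (z ^ (2 * m) + ∑ i, x i ^ (2 * m))) =
          algebraMap Coef K (kap m) * ∑ i, x i ^ (2 * m) + 2 * algebraMap Coef K (kap m) * z ^ (2 * m) := by
        ring
      rw [h7, h5]
      by_cases h8 : 4 ∣ 2 * m
      · rw [if_pos h8, if_pos ⟨h8, he0⟩]; ring
      · rw [if_neg h8, if_neg (fun h => h8 h.1)]; ring
    · rw [if_neg he, if_neg he, if_neg, if_neg]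
      · ring
      · rintro ⟨h, h'⟩
        exact he ⟨even_iff_two_dvd.mpr h, h'⟩
      · rintro ⟨h, h'⟩
        exact he ⟨even_iff_two_dvd.mpr (dvd_trans (by norm_num) h), h'⟩
  rw [h4]; ring

end linv

end Pool.Agent.HLf6dccc
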