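import Pool.Agent.HLf6dccc.Phi

open Finset

namespace Pool.Agent.HLf6dccc

section log

variable {K : Type*} [CommRing K] [Algebra ℚ K]

/-- log of a power series -/
noncomputable def plog (f : PowerSeries K) : PowerSeries K := (PowerSeries.log K).subst (f - 1)

lemma hasSubst_sub_one {f : PowerSeries K} (hf : PowerSeries.constantCoeff f = 1) :
    PowerSeries.HasSubst (f - 1) :=
  PowerSeries.HasSubst.of_constantCoeff_zero' (by rw [map_sub, hf, map_one, sub_self])

lemma mul_deriv_log : (1 + PowerSeries.X) * (PowerSeries.derivative K (PowerSeries.log K)) = 1 := by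
  rw [PowerSeries.deriv_log]
  ext n
  rcases n with _ | n
  · simp [add_mul]
  · rw [add_mul, one_mul, map_add, PowerSeries.coeff_succ_X_mul]
    simp [pow_succ]

lemma deriv_plog {f : PowerSeries K} (hf : PowerSeries.constantCoeff f = 1) :
    f * PowerSeries.derivative K (plog f) = PowerSeries.derivative K f := by
  unfold plog
  rw [PowerSeries.derivative_subst (hasSubst_sub_one hf)]
  have h1 := congrArg (fun g : PowerSeries K => g.subst (f - 1)) (mul_deriv_log (K := K))
  rw [PowerSeries.subst_mul (hasSubst_sub_one hf), PowerSeries.subst_add (hasSubst_sub_one hf),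
    PowerSeries.subst_X (hasSubst_sub_one hf)] at h1
  have h2 : (1 : PowerSeries K).subst (f - 1) = 1 := by
    rw [← PowerSeries.coe_substAlgHom (hasSubst_sub_one hf), map_one]
  rw [h2] at h1
  have h3 : (1 : PowerSeries K) + (f - 1) = f := by ring
  rw [h3] at h1
  rw [← mul_assoc, h1, one_mul, map_sub, Derivation.map_one_eq_zero, sub_zero]

lemma constantCoeff_plog {f : PowerSeries K} (hf : PowerSeries.constantCoeff f = 1) :
    PowerSeries.constantCoeff (plog f) = 0 :=
  PowerSeries.constantCoeff_logOf hf

lemma isUnit_of_constantCoeff_one {f : PowerSeries K} (hf : PowerSeries.constantCoeff f = 1) :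
    IsUnit f := by
  rw [PowerSeries.isUnit_iff_constantCoeff, hf]
  exact isUnit_one

lemma plog_mul [IsAddTorsionFree K] {f g : PowerSeries K} (hf : PowerSeries.constantCoeff f = 1)
    (hg : PowerSeries.constantCoeff g = 1) : plog (f * g) = plog f + plog g := by
  have hfg : PowerSeries.constantCoeff (f * g) = 1 := by rw [map_mul, hf, hg, one_mul]
  apply PowerSeries.derivative.ext
  · have hu := isUnit_of_constantCoeff_one hfg
    apply hu.mul_left_cancel
    rw [deriv_plog hfg, map_add, mul_add]
    have e1 : f * g * PowerSeries.derivative K (plog f) = g * PowerSeries.derivative K f := by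
      rw [← deriv_plog hf]; ring
    have e2 : f * g * PowerSeries.derivative K (plog g) = f * PowerSeries.derivative K g := by
      rw [← deriv_plog hg]; ring
    rw [e1, e2, Derivation.leibniz, smul_eq_mul, smul_eq_mul]
    ring
  · rw [constantCoeff_plog hfg, map_add, constantCoeff_plog hf, constantCoeff_plog hg, add_zero]

lemma coeff_plog_one_sub (s : K) (k : ℕ) (hk : k ≠ 0) (e : ℕ) :
    PowerSeries.coeff e (plog (1 - PowerSeries.C s * PowerSeries.X ^ k)) =
      if k ∣ e ∧ e ≠ 0 then - algebraMap ℚ K (1 / ((e / k : ℕ) : ℚ)) * s ^ (e / k) else 0 := by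
  have hs : PowerSeries.HasSubst (1 - PowerSeries.C s * PowerSeries.X ^ k - 1 : PowerSeries K) := by
    apply hasSubst_sub_one
    simp [hk]
  unfold plog
  rw [PowerSeries.coeff_subst' hs]
  have h1 : ∀ j : ℕ, PowerSeries.coeff j (PowerSeries.log K) •
      PowerSeries.coeff e ((1 - PowerSeries.C s * PowerSeries.X ^ k - 1) ^ j) =
      if e = k * j then PowerSeries.coeff j (PowerSeries.log K) * (-s) ^ j else 0 := by
    intro j
    have : (1 - PowerSeries.C s * PowerSeries.X ^ k - 1 : PowerSeries K) ^ j =
        PowerSeries.C ((-s) ^ j) * PowerSeries.X ^ (k * j) := by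
      rw [map_pow, map_neg, pow_mul, ← mul_pow]
      congr 1
      ring
    rw [this, PowerSeries.coeff_C_mul, PowerSeries.coeff_X_pow]
    split_ifs <;> simp
  simp only [h1]
  by_cases hd : k ∣ e
  · obtain ⟨j, rfl⟩ := hd
    have hj : k * j / k = j := Nat.mul_div_cancel_left j (Nat.pos_of_ne_zero hk)
    rw [finsum_eq_single _ j]
    · rw [if_pos rfl, hj, PowerSeries.coeff_log]
      by_cases h0 : j = 0
      · subst h0; simp
      · rw [if_neg h0, if_pos ⟨dvd_mul_right _ _, by simp [hk, h0]⟩]
        have : (-s) ^ j = (-1) ^ j * s ^ j := by rw [← mul_pow]; ring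
        rw [this, ← mul_assoc]
        congr 1
        have h2 : ((-1 : K)) ^ j = algebraMap ℚ K ((-1) ^ j) := by simp
        rw [h2, ← map_mul, ← map_neg]
        congr 1
        have h3 : ((-1 : ℚ)) ^ (j+1) / j * (-1) ^ j = ((-1) ^ j * (-1) ^ j) * (-(1 / j)) := by
          rw [pow_succ]; ring
        rw [h3, ← mul_pow]; simp
    · intro j' hj'
      rw [if_neg]
      intro h
      exact hj' (Nat.eq_of_mul_eq_mul_left (Nat.pos_of_ne_zero hk) h).symm
  · rw [if_neg (fun h => hd h.1), finsum_eq_zero_of_forall_eq_zero]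
    intro j
    rw [if_neg]
    rintro rfl
    exact hd (dvd_mul_right _ _)

variable {n : ℕ} {A : Type*} [CommRing A] [Algebra ℚ A] [Algebra A K]

lemma Phi_log (y : Fin n → K) (W : MvPowerSeries ℕ A)
    (hW : MvPowerSeries.constantCoeff W = 1) :
    Phi y ((PowerSeries.log A).subst (W - 1)) = plog (Phi y W) := by
  have hs : PowerSeries.HasSubst (W - 1) :=
    PowerSeries.HasSubst.of_constantCoeff_zero (by rw [map_sub, hW, map_one, sub_self])
  have h1 : Phi y ((PowerSeries.log A).subst (W - 1)) =
      (PowerSeries.log A).subst (Phi y (W - 1)) := by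
    unfold Phi
    rw [MvPowerSeries.coe_substAlgHom]
    unfold PowerSeries.subst
    rw [MvPowerSeries.subst_comp_subst_apply hs.const (phiVar_hasSubst y)]
  rw [h1, map_sub, map_one]
  unfold plog
  have hc : PowerSeries.constantCoeff (Phi y W) = 1 := by
    rw [← PowerSeries.coeff_zero_eq_constantCoeff_apply, coeff_Phi]
    have : (univ : Finset (Fin n)).finsuppAntidiag 0 = {0} := by
      ext γ
      simp [Finset.mem_finsuppAntidiag, Finsupp.ext_iff]
    rw [this, Finset.sum_singleton]
    have h0 : Finsupp.embDomain Fin.valEmbedding (0 : Fin n →₀ ℕ) = 0 := by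
      exact Finsupp.embDomain_zero _
    rw [h0, MvPowerSeries.coeff_zero_eq_constantCoeff_apply, hW]
    simp
  ext e
  rw [PowerSeries.coeff_subst' (hasSubst_sub_one hc), PowerSeries.coeff_subst' (hasSubst_sub_one hc)]
  apply finsum_congr
  intro j
  rw [Algebra.smul_def, smul_eq_mul]
  congr 1
  rw [PowerSeries.coeff_log, PowerSeries.coeff_log]
  split_ifs
  · simp
  · exact (algebraMap A K).map_rat_algebraMap _

end log

section psum

variable {A : Type} [CommRing A]

open scoped Classical

/-- power sums over a general ring -/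
noncomputable def psumG (A : Type) [CommRing A] (k : ℕ) : MvPowerSeries ℕ A :=
  formalSum fun i : ℕ => MvPowerSeries.X i ^ k

lemma coeff_psumG (k : ℕ) (hk : k ≠ 0) (β : ℕ →₀ ℕ) :
    MvPowerSeries.coeff β (psumG A k) = if ∃ i, β = Finsupp.single i k then 1 else 0 := by
  classical
  change ∑ᶠ i : ℕ, MvPowerSeries.coeff β (MvPowerSeries.X i ^ k : MvPowerSeries ℕ A) = _
  have h1 : ∀ i : ℕ, MvPowerSeries.coeff β (MvPowerSeries.X i ^ k : MvPowerSeries ℕ A) =
      if β = Finsupp.single i k then 1 else 0 := by
    intro i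
    rw [MvPowerSeries.coeff_X_pow]
  simp only [h1]
  by_cases h : ∃ i, β = Finsupp.single i k
  · obtain ⟨i, hi⟩ := h
    rw [if_pos ⟨i, hi⟩, finsum_eq_single _ i]
    · rw [if_pos hi]
    · intro j hj
      rw [if_neg]
      intro h'
      rw [hi] at h'
      rw [Finsupp.single_eq_single_iff] at h'
      rcases h' with h' | h'
      · exact hj h'.1.symm
      · exact hk h'.1
  · rw [if_neg h, finsum_eq_zero_of_forall_eq_zero]
    intro i
    rw [if_neg]
    intro h'
    exact h ⟨i, h'⟩

variable {n : ℕ} {K : Type*} [CommRing K] [Algebra A K]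

lemma coeff_Phi_of_psum (y : Fin n → K) (F : MvPowerSeries ℕ A) (cc : A) (e : ℕ) (he : e ≠ 0)
    (h : ∀ β : ℕ →₀ ℕ, (β.sum fun _ k => k) = e →
      MvPowerSeries.coeff β F = if ∃ i, β = Finsupp.single i e then cc else 0) :
    PowerSeries.coeff e (Phi y F) = algebraMap A K cc * ∑ i, y i ^ e := by
  classical
  rw [coeff_Phi]
  have h1 : ∀ γ ∈ (univ : Finset (Fin n)).finsuppAntidiag e,
      algebraMap A K (MvPowerSeries.coeff (Finsupp.embDomain Fin.valEmbedding γ) F) * ∏ i, y i ^ γ i =
      if ∃ i, γ = Finsupp.single i e then algebraMap A K cc * ∏ i, y i ^ γ i else 0 := by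
    intro γ hγ
    rw [Finset.mem_finsuppAntidiag] at hγ
    rw [h]
    · by_cases hex : ∃ i, γ = Finsupp.single i e
      · rw [if_pos hex, if_pos]
        obtain ⟨i, rfl⟩ := hex
        exact ⟨i, by rw [Finsupp.embDomain_single]; rfl⟩
      · rw [if_neg hex, if_neg]
        · simp
        · rintro ⟨i, hi⟩
          apply hex
          have hin : i < n := by
            by_contra hni
            have := embDomain_ge γ i (not_lt.mp hni)
            rw [hi, Finsupp.single_eq_same] at this
            exact he this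
          refine ⟨⟨i, hin⟩, ?_⟩
          apply Finsupp.embDomain_injective Fin.valEmbedding
          rw [Finsupp.embDomain_single, hi]
          rfl
    · rw [Finsupp.sum_embDomain, Finsupp.sum_fintype _ _ (by simp)]
      exact hγ.1
  rw [Finset.sum_congr rfl h1, ← Finset.sum_filter, Finset.mul_sum]
  symm
  apply Finset.sum_bij (fun (i : Fin n) _ => (Finsupp.single i e : Fin n →₀ ℕ))
  · intro i _
    rw [Finset.mem_filter, Finset.mem_finsuppAntidiag]
    refine ⟨⟨?_, Finset.subset_univ _⟩, i, rfl⟩
    simp [Finsupp.single_apply]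
  · intro i _ j _ hij
    rw [Finsupp.single_eq_single_iff] at hij
    rcases hij with hij | hij
    · exact hij.1
    · exact absurd hij.1 he
  · intro γ hγ
    rw [Finset.mem_filter] at hγ
    obtain ⟨i, hi⟩ := hγ.2
    exact ⟨i, Finset.mem_univ _, hi.symm⟩
  · intro i _
    congr 1
    rw [Finset.prod_eq_single i]
    · simp
    · intro j _ hj
      rw [Finsupp.single_eq_of_ne hj, pow_zero]
    · simp

lemma Phi_psumG (y : Fin n → K) (k : ℕ) (hk : k ≠ 0) :
    Phi y (psumG A k) = PowerSeries.C (∑ i, y i ^ k) * PowerSeries.X ^ k := by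
  ext e
  rw [PowerSeries.coeff_C_mul, PowerSeries.coeff_X_pow]
  by_cases he : e = k
  · subst he
    rw [coeff_Phi_of_psum y _ 1 e hk]
    · simp
    · intro β _
      exact coeff_psumG e hk β
  · rw [if_neg he, mul_zero, coeff_Phi]
    refine Finset.sum_eq_zero fun γ hγ => ?_
    rw [Finset.mem_finsuppAntidiag] at hγ
    rw [coeff_psumG k hk, if_neg, map_zero, zero_mul]
    rintro ⟨i, hi⟩
    apply he
    rw [← hγ.1]
    have h2 : ((Finsupp.embDomain Fin.valEmbedding γ).sum fun _ k => k) = k := by
      rw [hi]; simp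
    rw [Finsupp.sum_embDomain, Finsupp.sum_fintype _ _ (by simp)] at h2
    exact h2

end psum

end Pool.Agent.HLf6dccc
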