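import Pool.Agent.HLf6dccc.LInv

open Finset

namespace Pool.Agent.HLf6dccc

section vals

/-- nonzero values of an exponent vector -/
def vals (β : ℕ →₀ ℕ) : Multiset ℕ := β.support.val.map β

lemma vals_single_add (i v : ℕ) (R : ℕ →₀ ℕ) (h : R i = 0) :
    vals (Finsupp.single i v + R) = if v = 0 then vals R else v ::ₘ vals R := by
  split_ifs with hv
  · subst hv; simp
  · have hi : i ∉ R.support := by simp [h]
    unfold vals
    rw [Finsupp.support_single_add hi hv, Finset.cons_val, Multiset.map_cons]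
    congr 1
    · simp [h]
    · apply Multiset.map_congr rfl
      intro j hj
      have : j ≠ i := by
        rintro rfl
        exact hi hj
      simp [Finsupp.single_apply, this.symm]

lemma erase_apply_self (i : ℕ) (β : ℕ →₀ ℕ) : (β.erase i) i = 0 := Finsupp.erase_same

lemma vals_eq (i : ℕ) (β : ℕ →₀ ℕ) (hi : β i ≠ 0) : vals β = β i ::ₘ vals (β.erase i) := by
  conv_lhs => rw [← Finsupp.single_add_erase i β]
  rw [vals_single_add _ _ _ Finsupp.erase_same, if_neg hi]

lemma vals_sub (i k : ℕ) (β : ℕ →₀ ℕ) :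
    vals (β - Finsupp.single i k) =
      if β i - k = 0 then vals (β.erase i) else (β i - k) ::ₘ vals (β.erase i) := by
  have : β - Finsupp.single i k = Finsupp.single i (β i - k) + β.erase i := by
    ext j
    by_cases h : j = i
    · subst h; simp
    · simp [Finsupp.single_apply, Ne.symm h, Finsupp.erase_ne h]
  rw [this, vals_single_add _ _ _ Finsupp.erase_same]

lemma vals_sum (β : ℕ →₀ ℕ) : (vals β).sum = β.sum fun _ k => k := rfl

lemma vals_pos (β : ℕ →₀ ℕ) (k : ℕ) (h : k ∈ vals β) : 0 < k := by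
  unfold vals at h
  rw [Multiset.mem_map] at h
  obtain ⟨i, hi, rfl⟩ := h
  exact Nat.pos_of_ne_zero (Finsupp.mem_support_iff.mp hi)

lemma nz_eq_vals {n : ℕ} (β : ℕ →₀ ℕ) (h : ∀ i ≥ n, β i = 0) :
    nz (fun i : Fin n => β i) = vals β := by
  unfold nz vals
  rw [Multiset.filter_map]
  have h1 : β.support.val = (Multiset.filter ((fun x : ℕ => x ≠ 0) ∘ fun i : Fin n => β i)
      univ.val).map Fin.val := by
    have h2 : β.support = (univ.filter (fun i : Fin n => β i ≠ 0)).map Fin.valEmbedding := by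
      ext j
      rw [Finsupp.mem_support_iff, Finset.mem_map]
      constructor
      · intro hj
        have hjn : j < n := by
          by_contra hc
          exact hj (h j (not_lt.mp hc))
        exact ⟨⟨j, hjn⟩, by simpa using hj, rfl⟩
      · rintro ⟨i, hi, rfl⟩
        rw [Finset.mem_filter] at hi
        exact hi.2
    rw [h2]
    rfl
  rw [h1, Multiset.map_map]
  rfl

lemma card_vals_le (β : ℕ →₀ ℕ) : (vals β).card ≤ β.sum fun _ k => k := by
  rw [← vals_sum]
  have h := Multiset.card_nsmul_le_sum (s := vals β) (a := 1) (fun x hx => vals_pos β x hx)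
  simpa using h

/-- a representative -/
lemma exists_rep (M : Multiset ℕ) (hM : ∀ k ∈ M, 0 < k) : ∃ β : ℕ →₀ ℕ, vals β = M := by
  induction M using Multiset.induction_on with
  | empty => exact ⟨0, by simp [vals]⟩
  | cons k M ih =>
    obtain ⟨β, hβ⟩ := ih fun k hk => hM k (Multiset.mem_cons_of_mem hk)
    refine ⟨Finsupp.single (bd β) k + β, ?_⟩
    rw [vals_single_add _ _ _ (bd_spec β _ le_rfl), hβ, if_neg]
    exact (hM k (Multiset.mem_cons_self _ _)).ne'

end vals

section q

open scoped Classical in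
lemma coeff_psum_mul (k : ℕ) (hk : k ≠ 0) (G : MvPowerSeries ℕ Coef) (β : ℕ →₀ ℕ) :
    MvPowerSeries.coeff β (psum k * G) =
      ∑ i ∈ β.support.filter (fun i => k ≤ β i), MvPowerSeries.coeff (β - Finsupp.single i k) G := by
  rw [MvPowerSeries.coeff_mul]
  have h1 : ∀ p ∈ antidiagonal β, MvPowerSeries.coeff p.1 (psum k) * MvPowerSeries.coeff p.2 G =
      if ∃ i, p.1 = Finsupp.single i k then MvPowerSeries.coeff p.2 G else 0 := by
    intro p _
    rw [psum_eq, coeff_psumG k hk]
    split_ifs <;> simp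
  rw [Finset.sum_congr rfl h1, ← Finset.sum_filter]
  symm
  refine Finset.sum_bij (fun i _ => (Finsupp.single i k, β - Finsupp.single i k)) ?_ ?_ ?_ ?_
  · intro i hi
    rw [Finset.mem_filter] at hi
    rw [Finset.mem_filter, Finset.HasAntidiagonal.mem_antidiagonal]
    refine ⟨?_, i, rfl⟩
    ext j
    by_cases hj : j = i
    · subst hj; simp; omega
    · simp [Finsupp.single_apply, Ne.symm hj]
  · intro i _ j _ hij
    rw [Prod.mk.injEq, Finsupp.single_eq_single_iff] at hij
    rcases hij.1 with h | h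
    · exact h.1
    · exact absurd h.1 hk
  · rintro ⟨p, r⟩ hp
    rw [Finset.mem_filter, Finset.HasAntidiagonal.mem_antidiagonal] at hp
    obtain ⟨h1, i, h2⟩ := hp
    simp only at h1 h2
    subst h2
    refine ⟨i, ?_, ?_⟩
    · rw [Finset.mem_filter, Finsupp.mem_support_iff, ← h1]
      simp; omega
    · rw [← h1]; simp
  · intro i _; rfl

/-- the products of power sums -/
noncomputable def qq (μ : Multiset ℕ) : MvPowerSeries ℕ Coef := (μ.map psum).prod

lemma coeff_qq (μ : Multiset ℕ) : (∀ k ∈ μ, 0 < k) → ∀ β : ℕ →₀ ℕ, ∃ m : ℕ,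
    MvPowerSeries.coeff β (qq μ) = (m : Coef) ∧ (vals β = μ → 0 < m) ∧
    (m ≠ 0 → (vals β).card ≤ μ.card) ∧ (m ≠ 0 → (vals β).card = μ.card → vals β = μ) ∧
    (m ≠ 0 → (vals β).sum = μ.sum) := by
  classical
  induction μ using Multiset.induction_on with
  | empty =>
    intro _ β
    refine ⟨if β = 0 then 1 else 0, ?_, ?_, ?_, ?_, ?_⟩
    · unfold qq
      rw [Multiset.map_zero, Multiset.prod_zero, MvPowerSeries.coeff_one]
      split_ifs <;> simp
    · intro h
      unfold vals at h
      rw [Multiset.map_eq_zero, Finset.val_eq_zero, Finsupp.support_eq_empty] at h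
      rw [if_pos h]; norm_num
    · intro h
      have : β = 0 := by by_contra h'; rw [if_neg h'] at h; exact h rfl
      subst this; simp [vals]
    · intro h _
      have : β = 0 := by by_contra h'; rw [if_neg h'] at h; exact h rfl
      subst this; simp [vals]
    · intro h
      have : β = 0 := by by_contra h'; rw [if_neg h'] at h; exact h rfl
      subst this; simp [vals]
  | cons k μ ih =>
    intro hpos β
    have hk : 0 < k := hpos k (Multiset.mem_cons_self _ _)
    have ih' := ih fun k hk => hpos k (Multiset.mem_cons_of_mem hk)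
    choose m hm1 hm2 hm3 hm4 hm5 using ih'
    refine ⟨∑ i ∈ β.support.filter (fun i => k ≤ β i), m (β - Finsupp.single i k), ?_, ?_, ?_, ?_, ?_⟩
    · have : qq (k ::ₘ μ) = psum k * qq μ := by
        unfold qq; rw [Multiset.map_cons, Multiset.prod_cons]
      rw [this, coeff_psum_mul k hk.ne', Nat.cast_sum]
      exact Finset.sum_congr rfl fun i _ => hm1 _
    · intro h
      have hmem : k ∈ vals β := by rw [h]; exact Multiset.mem_cons_self _ _
      unfold vals at hmem
      rw [Multiset.mem_map] at hmem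
      obtain ⟨i, hi, hik⟩ := hmem
      apply Finset.sum_pos'
      · intro _ _; exact Nat.zero_le _
      · refine ⟨i, ?_, ?_⟩
        · rw [Finset.mem_filter]
          exact ⟨hi, hik.ge⟩
        · apply hm2
          rw [vals_sub, if_pos (by omega)]
          have h3 := vals_eq i β (Finsupp.mem_support_iff.mp hi)
          rw [h, hik] at h3
          exact ((Multiset.cons_inj_right k).mp h3).symm
    · intro h
      obtain ⟨i, hi, hne⟩ := Finset.exists_ne_zero_of_sum_ne_zero h
      rw [Finset.mem_filter, Finsupp.mem_support_iff] at hi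
      have h1 := hm3 _ hne
      rw [vals_sub] at h1
      rw [vals_eq i β hi.1, Multiset.card_cons, Multiset.card_cons]
      split_ifs at h1 with h2
      · omega
      · rw [Multiset.card_cons] at h1; omega
    · intro h hc
      obtain ⟨i, hi, hne⟩ := Finset.exists_ne_zero_of_sum_ne_zero h
      rw [Finset.mem_filter, Finsupp.mem_support_iff] at hi
      have h1 := hm3 _ hne
      have h4 := hm4 _ hne
      rw [vals_sub] at h1 h4
      rw [vals_eq i β hi.1, Multiset.card_cons, Multiset.card_cons] at hc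
      split_ifs at h1 h4 with h2
      · rw [vals_eq i β hi.1, h4 (by omega)]
        congr 1
        omega
      · rw [Multiset.card_cons] at h1; omega
    · intro h
      obtain ⟨i, hi, hne⟩ := Finset.exists_ne_zero_of_sum_ne_zero h
      rw [Finset.mem_filter, Finsupp.mem_support_iff] at hi
      have h5 := hm5 _ hne
      rw [vals_sub] at h5
      rw [vals_eq i β hi.1, Multiset.sum_cons, Multiset.sum_cons]
      split_ifs at h5 with h2
      · rw [h5]; omega
      · rw [Multiset.sum_cons] at h5; omega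

end q

section symcan

/-- symmetric -/
def SymF (F : MvPowerSeries ℕ Coef) : Prop :=
  ∀ (n : ℕ) (σ : Equiv.Perm (Fin n)),
    Phi ((MvPolynomial.X : Fin n → MvPolynomial (Fin n) Coef) ∘ σ) F = Phi MvPolynomial.X F

/-- cancellation property -/
def CanF (F : MvPowerSeries ℕ Coef) : Prop :=
  ∀ n : ℕ, Phi (Fin.cons (MvPolynomial.X 0) (Fin.cons (-MvPolynomial.X 0)
      (fun i : Fin n => (MvPolynomial.X i.succ : MvPolynomial (Fin (n+1)) Coef)) :
        Fin (n+1) → MvPolynomial (Fin (n+1)) Coef) : Fin (n+2) → MvPolynomial (Fin (n+1)) Coef) F =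
    Phi (fun i : Fin n => (MvPolynomial.X i.succ : MvPolynomial (Fin (n+1)) Coef)) F

lemma SymF.coeff_eq {F : MvPowerSeries ℕ Coef} (hF : SymF F) {β β' : ℕ →₀ ℕ}
    (h : vals β = vals β') : MvPowerSeries.coeff β F = MvPowerSeries.coeff β' F := by
  set n := max (bd β) (bd β') with hn
  have hβ : ∀ i ≥ n, β i = 0 := fun i hi => bd_spec β i (le_trans (le_max_left _ _) hi)
  have hβ' : ∀ i ≥ n, β' i = 0 := fun i hi => bd_spec β' i (le_trans (le_max_right _ _) hi)
  have h1 : nz (fun i : Fin n => β i) = nz (fun i : Fin n => β' i) := by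
    rw [nz_eq_vals β hβ, nz_eq_vals β' hβ', h]
  obtain ⟨σ, hσ⟩ := exists_perm_of_nz_eq h1
  have h2 : (restr n β).mapDomain σ = restr n β' := by
    ext i
    have : i = σ (σ.symm i) := (σ.apply_symm_apply i).symm
    rw [this, Finsupp.mapDomain_apply σ.injective, restr_apply, restr_apply]
    have := congrFun hσ (σ.symm i)
    simpa using this
  have h3 := hF n σ
  have h4 : Phi ((MvPolynomial.X : Fin n → MvPolynomial (Fin n) Coef) ∘ σ) F =
      PowerSeries.map ((MvPolynomial.rename σ : MvPolynomial (Fin n) Coef →ₐ[Coef] _) :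
        MvPolynomial (Fin n) Coef →+* _) (Phi MvPolynomial.X F) := by
    rw [map_Phi]
    congr 2
    funext i
    simp
  have e1 : ∑ i, restr n β i = ∑ i, restr n β' i := by
    rw [← h2]
    conv_rhs => rw [← Equiv.sum_comp σ]
    refine Finset.sum_congr rfl fun i _ => ?_
    rw [Finsupp.mapDomain_apply σ.injective]
  rw [← embDomain_restr n β hβ, ← embDomain_restr n β' hβ', ← coeff_Phi_X, ← coeff_Phi_X, ← e1]
  conv_rhs => rw [← h3, h4, PowerSeries.coeff_map, ← h2]
  change _ = MvPolynomial.coeff _ (MvPolynomial.rename σ _)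
  rw [MvPolynomial.coeff_rename_mapDomain _ σ.injective]

/-- exponent vector from a function -/
noncomputable def toF {n : ℕ} (α : Fin n → ℕ) : ℕ →₀ ℕ :=
  Finsupp.embDomain Fin.valEmbedding (Finsupp.equivFunOnFinite.symm α)

lemma vals_toF {n : ℕ} (α : Fin n → ℕ) : vals (toF α) = nz α := by
  rw [← nz_eq_vals (n := n) (toF α) (fun i hi => embDomain_ge _ i hi)]
  congr 1
  funext i
  exact Finsupp.embDomain_apply_self Fin.valEmbedding _ i

lemma CanF.coeff_sum {F : MvPowerSeries ℕ Coef} (hC : CanF F) (n : ℕ) (γ : Fin n → ℕ) (e : ℕ)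
    (he : e ≠ 0) :
    ∑ p ∈ antidiagonal e, (-1) ^ p.2 * MvPowerSeries.coeff
      (toF (Fin.cons p.1 (Fin.cons p.2 γ : Fin (n+1) → ℕ) : Fin (n+2) → ℕ)) F = 0 := by
  classical
  have h1 := congrArg (fun G => MvPolynomial.coeff (Finsupp.equivFunOnFinite.symm (Fin.cons e γ : Fin (n+1) → ℕ))
    (PowerSeries.coeff (e + ∑ i, γ i) G)) (hC n)
  simp only [coeff_Phi, MvPolynomial.coeff_sum] at h1
  have hR : ∀ δ : Fin n →₀ ℕ, MvPolynomial.coeff (Finsupp.equivFunOnFinite.symm (Fin.cons e γ : Fin (n+1) → ℕ))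
      (algebraMap Coef (MvPolynomial (Fin (n+1)) Coef)
        (MvPowerSeries.coeff (Finsupp.embDomain Fin.valEmbedding δ) F) *
        ∏ i : Fin n, (MvPolynomial.X i.succ : MvPolynomial (Fin (n+1)) Coef) ^ δ i) = 0 := by
    intro δ
    have : algebraMap Coef (MvPolynomial (Fin (n+1)) Coef)
        (MvPowerSeries.coeff (Finsupp.embDomain Fin.valEmbedding δ) F) *
        ∏ i : Fin n, (MvPolynomial.X i.succ : MvPolynomial (Fin (n+1)) Coef) ^ δ i =
        MvPolynomial.monomial (Finsupp.equivFunOnFinite.symm (Fin.cons 0 δ : Fin (n+1) → ℕ))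
          (MvPowerSeries.coeff (Finsupp.embDomain Fin.valEmbedding δ) F) := by
      rw [MvPolynomial.monomial_eq, MvPolynomial.algebraMap_eq, Finsupp.prod_fintype _ _ (by simp),
        Fin.prod_univ_succ]
      simp
    rw [this, MvPolynomial.coeff_monomial, if_neg]
    intro h
    have := DFunLike.congr_fun h 0
    simp at this
    exact he this.symm
  rw [Finset.sum_eq_zero (s := finsuppAntidiag (univ : Finset (Fin n)) _) (fun δ _ => hR δ)] at h1
  rw [← h1]
  have hL : ∀ δ : Fin (n+2) →₀ ℕ, MvPolynomial.coeff (Finsupp.equivFunOnFinite.symm (Fin.cons e γ : Fin (n+1) → ℕ))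
      (algebraMap Coef (MvPolynomial (Fin (n+1)) Coef)
        (MvPowerSeries.coeff (Finsupp.embDomain Fin.valEmbedding δ) F) *
        ∏ i : Fin (n+2), (Fin.cons (MvPolynomial.X 0) (Fin.cons (-MvPolynomial.X 0)
      (fun i : Fin n => (MvPolynomial.X i.succ : MvPolynomial (Fin (n+1)) Coef)) :
        Fin (n+1) → MvPolynomial (Fin (n+1)) Coef) : Fin (n+2) → MvPolynomial (Fin (n+1)) Coef) i ^ δ i) =
      if δ 0 + δ 1 = e ∧ (∀ i : Fin n, δ i.succ.succ = γ i) then
        (-1) ^ (δ 1) * MvPowerSeries.coeff (Finsupp.embDomain Fin.valEmbedding δ) F else 0 := by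
    intro δ
    have : algebraMap Coef (MvPolynomial (Fin (n+1)) Coef)
        (MvPowerSeries.coeff (Finsupp.embDomain Fin.valEmbedding δ) F) *
        ∏ i : Fin (n+2), (Fin.cons (MvPolynomial.X 0) (Fin.cons (-MvPolynomial.X 0)
      (fun i : Fin n => (MvPolynomial.X i.succ : MvPolynomial (Fin (n+1)) Coef)) :
        Fin (n+1) → MvPolynomial (Fin (n+1)) Coef) : Fin (n+2) → MvPolynomial (Fin (n+1)) Coef) i ^ δ i =
        MvPolynomial.monomial (Finsupp.equivFunOnFinite.symm (Fin.cons (δ 0 + δ 1)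
          (fun i : Fin n => δ i.succ.succ) : Fin (n+1) → ℕ))
          ((-1) ^ (δ 1) * MvPowerSeries.coeff (Finsupp.embDomain Fin.valEmbedding δ) F) := by
      rw [MvPolynomial.monomial_eq, MvPolynomial.algebraMap_eq, Finsupp.prod_fintype _ _ (by simp),
        Fin.prod_univ_succ, Fin.prod_univ_succ, Fin.prod_univ_succ (n := n)]
      simp only [Fin.cons_zero, Fin.cons_succ, Finsupp.equivFunOnFinite_symm_apply_apply, map_mul, map_pow, map_neg,
        map_one]
      rw [neg_pow (MvPolynomial.X 0 : MvPolynomial (Fin (n+1)) Coef), pow_add]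
      have : (Fin.succ 0 : Fin (n+2)) = 1 := rfl
      rw [this]
      ring
    rw [this, MvPolynomial.coeff_monomial]
    have hiff : (Finsupp.equivFunOnFinite.symm (Fin.cons (δ 0 + δ 1)
          (fun i : Fin n => δ i.succ.succ) : Fin (n+1) → ℕ) =
          Finsupp.equivFunOnFinite.symm (Fin.cons e γ : Fin (n+1) → ℕ)) ↔
          (δ 0 + δ 1 = e ∧ (∀ i : Fin n, δ i.succ.succ = γ i)) := by
      rw [Finsupp.equivFunOnFinite.symm.injective.eq_iff, Fin.cons_inj, funext_iff]
    by_cases hc : (δ 0 + δ 1 = e ∧ (∀ i : Fin n, δ i.succ.succ = γ i))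
    · rw [if_pos (hiff.mpr hc), if_pos hc]
    · rw [if_neg (fun h => hc (hiff.mp h)), if_neg hc]
  rw [Finset.sum_congr rfl fun δ _ => hL δ, ← Finset.sum_filter]
  refine Finset.sum_bij (fun p _ => Finsupp.equivFunOnFinite.symm
    (Fin.cons p.1 (Fin.cons p.2 γ : Fin (n+1) → ℕ) : Fin (n+2) → ℕ)) ?_ ?_ ?_ ?_
  · intro p hp
    rw [Finset.HasAntidiagonal.mem_antidiagonal] at hp
    rw [Finset.mem_filter, Finset.mem_finsuppAntidiag]
    refine ⟨⟨?_, Finset.subset_univ _⟩, ?_, ?_⟩
    · rw [Fin.sum_univ_succ, Fin.sum_univ_succ]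
      simp only [Finsupp.equivFunOnFinite_symm_apply_apply, Fin.cons_zero, Fin.cons_succ]
      omega
    · have : (1 : Fin (n+2)) = Fin.succ 0 := rfl
      rw [this]
      simp only [Finsupp.equivFunOnFinite_symm_apply_apply, Fin.cons_zero, Fin.cons_succ]
      exact hp
    · intro i
      simp
  · intro p hp p' hp' h
    have h0 := DFunLike.congr_fun h 0
    have h1 := DFunLike.congr_fun h (Fin.succ 0)
    simp only [Finsupp.equivFunOnFinite_symm_apply_apply, Fin.cons_zero, Fin.cons_succ] at h0 h1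
    exact Prod.ext h0 h1
  · intro δ hδ
    rw [Finset.mem_filter] at hδ
    refine ⟨(δ 0, δ 1), Finset.HasAntidiagonal.mem_antidiagonal.mpr hδ.2.1, ?_⟩
    ext i
    rw [Finsupp.equivFunOnFinite_symm_apply_apply]
    refine Fin.cases ?_ (fun i => Fin.cases ?_ (fun i => ?_) i) i
    · simp
    · simp
    · simp [hδ.2.2 i]
  · intro p hp
    have : (1 : Fin (n+2)) = Fin.succ 0 := rfl
    rw [this]
    simp only [Finsupp.equivFunOnFinite_symm_apply_apply, Fin.cons_zero, Fin.cons_succ]
    rfl

lemma SymF.coeff_eq_zero_of {F : MvPowerSeries ℕ Coef} (hF : SymF F) (hC : CanF F) (e k : ℕ)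
    (hk : ∀ β : ℕ →₀ ℕ, (vals β).sum = e → k + 1 ≤ (vals β).card → MvPowerSeries.coeff β F = 0)
    (β : ℕ →₀ ℕ) (hβ : (vals β).sum = e) (hcard : (vals β).card = k)
    (hev : ∃ j ∈ vals β, Even j) : MvPowerSeries.coeff β F = 0 := by
  obtain ⟨j, hj, hje⟩ := hev
  have hj0 : j ≠ 0 := (vals_pos β j hj).ne'
  obtain ⟨M, hM⟩ := Multiset.exists_cons_of_mem hj
  -- represent `M`
  set n := M.card with hn
  obtain ⟨γ, hγ⟩ : ∃ γ : Fin n → ℕ, univ.val.map γ = M := by
    refine ⟨fun i => M.toList.get (Fin.cast (by simp [hn]) i), ?_⟩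
    rw [Fin.univ_val_map]
    conv_rhs => rw [← Multiset.coe_toList M]
    rw [Multiset.coe_eq_coe]
    have : List.ofFn (fun i : Fin n => M.toList.get (Fin.cast (by simp [hn]) i)) = M.toList := by
      apply List.ext_get
      · simp [hn]
      · intro i h1 h2
        simp
    rw [this]
  have hMpos : ∀ x ∈ M, x ≠ 0 := by
    intro x hx
    exact (vals_pos β x (by rw [hM]; exact Multiset.mem_cons_of_mem hx)).ne'
  have hnz : nz γ = M := by
    unfold nz
    rw [hγ, Multiset.filter_eq_self]
    exact hMpos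
  have h := hC.coeff_sum n γ j hj0
  have hmem1 : ((j, 0) : ℕ × ℕ) ∈ antidiagonal j := by simp
  have hmem2 : ((0, j) : ℕ × ℕ) ∈ (antidiagonal j).erase (j, 0) := by
    rw [Finset.mem_erase]
    refine ⟨?_, by simp⟩
    intro h'
    exact hj0 (Prod.mk.injEq _ _ _ _ ▸ h').2
  rw [← Finset.add_sum_erase _ _ hmem1, ← Finset.add_sum_erase _ _ hmem2] at h
  rw [Finset.sum_eq_zero] at h
  · have v1 : vals (toF (Fin.cons j (Fin.cons 0 γ : Fin (n+1) → ℕ) : Fin (n+2) → ℕ)) = vals β := by
      rw [vals_toF, nz_cons, nz_cons, if_neg hj0, if_pos rfl, hnz, hM]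
    have v2 : vals (toF (Fin.cons 0 (Fin.cons j γ : Fin (n+1) → ℕ) : Fin (n+2) → ℕ)) = vals β := by
      rw [vals_toF, nz_cons, nz_cons, if_neg hj0, if_pos rfl, hnz, hM]
    simp only at h
    rw [hF.coeff_eq v1, hF.coeff_eq v2, hje.neg_one_pow, pow_zero] at h
    have h2 : (2 : Coef) * MvPowerSeries.coeff β F = 0 := by
      rw [← h]; ring
    rcases mul_eq_zero.mp h2 with h3 | h3
    · exact absurd h3 two_ne_zero
    · exact h3
  · rintro ⟨r, s⟩ hp
    rw [Finset.mem_erase, Finset.mem_erase, Finset.HasAntidiagonal.mem_antidiagonal] at hp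
    obtain ⟨hp1, hp2, hp3⟩ := hp
    simp only at hp3
    have hr : r ≠ 0 := by
      rintro rfl
      apply hp1
      rw [zero_add] at hp3
      rw [hp3]
    have hs : s ≠ 0 := by
      rintro rfl
      apply hp2
      rw [add_zero] at hp3
      rw [hp3]
    rw [hk, mul_zero]
    · rw [vals_toF, nz_cons, nz_cons, if_neg hr, if_neg hs, hnz, Multiset.sum_cons, Multiset.sum_cons]
      rw [← hβ, hM, Multiset.sum_cons]
      omega
    · rw [vals_toF, nz_cons, nz_cons, if_neg hr, if_neg hs, hnz, Multiset.card_cons, Multiset.card_cons]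
      rw [← hcard, hM, Multiset.card_cons]

end symcan

end Pool.Agent.HLf6dccc
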