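import Pool.Agent.HLf6dccc.Log

open Finset

namespace Pool.Agent.HLf6dccc

section alt

variable {R : Type*} [CommMonoid R]

/-- alternating product -/
def alt (A B : ℕ → R) : List ℕ → R
  | [] => 1
  | r :: l => A r * alt B A l

lemma alt_insert2 (r : ℕ) (l : List ℕ) : ∀ A B : ℕ → R,
    alt A B ((l.orderedInsert (· ≥ ·) r).orderedInsert (· ≥ ·) r) = A r * B r * alt A B l := by
  induction l with
  | nil => intro A B; simp [alt, mul_assoc]
  | cons b l ih =>
    intro A B
    by_cases h : r ≥ b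
    · rw [List.orderedInsert_cons_of_le _ _ h, List.orderedInsert_cons_of_le _ _ (ge_iff_le.mpr (le_refl r))]
      simp only [alt, mul_assoc]
    · rw [List.orderedInsert_of_not_le _ _ h, List.orderedInsert_of_not_le _ _ h]
      simp only [alt]
      rw [ih, mul_comm (B r) (A r), mul_left_comm]

lemma sort_cons_eq (r : ℕ) (M : Multiset ℕ) :
    (r ::ₘ M).sort (· ≥ ·) = (M.sort (· ≥ ·)).orderedInsert (· ≥ ·) r := by
  refine List.Perm.eq_of_pairwise' (r := (· ≥ ·)) (Multiset.pairwise_sort _ _) ?_ ?_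
  · exact (Multiset.pairwise_sort M (· ≥ ·)).orderedInsert r _
  · rw [← Multiset.coe_eq_coe, Multiset.sort_eq]
    have := Multiset.coe_eq_coe.mpr (List.perm_orderedInsert (· ≥ ·) r (M.sort (· ≥ ·)))
    rw [this, ← Multiset.cons_coe, Multiset.sort_eq]

lemma alt_getD {R : Type*} [CommMonoid R] (f g : ℕ → ℕ) (hf : f 0 = 0) (hg : g 0 = 0) (l : List ℕ) :
    ∀ (a b c d : R) (N : ℕ), l.length ≤ N →
    a ^ (∑ i ∈ range N, f (l.getD (2 * i) 0)) * b ^ (∑ i ∈ range N, g (l.getD (2 * i) 0)) *
    (c ^ (∑ i ∈ range N, f (l.getD (2 * i + 1) 0)) * d ^ (∑ i ∈ range N, g (l.getD (2 * i + 1) 0))) =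
    alt (fun r => a ^ f r * b ^ g r) (fun r => c ^ f r * d ^ g r) l := by
  induction l with
  | nil => intro a b c d N _; simp [alt, hf, hg]
  | cons x l ih =>
    intro a b c d N hN
    obtain ⟨k, rfl⟩ : ∃ k, N = k + 1 := ⟨N - 1, by simp at hN; omega⟩
    have hk : l.length ≤ k := by simpa using hN
    have e1 : ∀ f : ℕ → ℕ, ∑ i ∈ range (k+1), f ((x :: l).getD (2 * i) 0) =
        f x + ∑ i ∈ range k, f (l.getD (2 * i + 1) 0) := by
      intro f
      rw [Finset.sum_range_succ']
      simp only [mul_zero, List.getD_cons_zero]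
      rw [add_comm]
      congr 1
    have e2 : ∀ f : ℕ → ℕ, f 0 = 0 → ∑ i ∈ range (k+1), f ((x :: l).getD (2 * i + 1) 0) =
        ∑ i ∈ range k, f (l.getD (2 * i) 0) := by
      intro f hf
      rw [Finset.sum_range_succ]
      have : (x :: l).getD (2 * k + 1) 0 = 0 := by
        rw [List.getD_cons_succ, List.getD_eq_default]
        omega
      rw [this, hf, add_zero]
      refine Finset.sum_congr rfl fun i _ => ?_
      rw [List.getD_cons_succ]
    rw [e1, e1, e2 f hf, e2 g hg]
    simp only [alt]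
    rw [← ih c d a b k hk]
    rw [pow_add, pow_add]
    simp only [mul_assoc, mul_left_comm, mul_comm]

end alt

noncomputable def wA (r : ℕ) : Coef := a ^ ((r + 1) / 2) * b ^ (r / 2)
noncomputable def wB (r : ℕ) : Coef := c ^ ((r + 1) / 2) * d ^ (r / 2)

noncomputable def omegaM (M : Multiset ℕ) : Coef := alt wA wB (M.sort (· ≥ ·))

noncomputable def omega2 (r : ℕ) : Coef := wA r * wB r

lemma omegaM_cons_cons (r : ℕ) (M : Multiset ℕ) :
    omegaM (r ::ₘ r ::ₘ M) = omega2 r * omegaM M := by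
  unfold omegaM omega2
  rw [sort_cons_eq, sort_cons_eq, alt_insert2]

lemma omega2_zero : omega2 0 = 1 := by simp [omega2, wA, wB]

lemma omegaM_nz_cons_cons {n : ℕ} (r : ℕ) (α : Fin n → ℕ) :
    omegaM (nz (Fin.cons r (Fin.cons r α : Fin (n+1) → ℕ) : Fin (n+2) → ℕ)) =
      omega2 r * omegaM (nz α) := by
  rw [nz_cons, nz_cons]
  split_ifs with h
  · rw [h, omega2_zero, one_mul]
  · rw [omegaM_cons_cons]

lemma card_parts_le {m : ℕ} (lam : Nat.Partition m) : lam.parts.card ≤ m := by
  have h := Multiset.card_nsmul_le_sum (s := lam.parts) (a := 1) (fun x hx => lam.parts_pos hx)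
  rw [lam.parts_sum] at h
  simpa using h

lemma omega_eq {m : ℕ} (lam : Nat.Partition m) : omega lam = omegaM lam.parts := by
  unfold omega omegaM row
  exact alt_getD (fun r => (r + 1) / 2) (fun r => r / 2) rfl rfl _ a b c d m
    (by rw [Multiset.length_sort]; exact card_parts_le lam)

end Pool.Agent.HLf6dccc
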