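import Pool.Agent.HLf6dccc.HL

open Finset

namespace Pool.Agent.HLf6dccc

section phi

variable {n : ℕ} {A K : Type*} [CommRing A] [CommRing K] [Algebra A K]

/-- substitution `x_i ↦ y_i u` (`i<n`), `x_i ↦ 0` (`i ≥ n`) -/
noncomputable def phiVar (y : Fin n → K) (i : ℕ) : PowerSeries K :=
  if h : i < n then PowerSeries.C (y ⟨i, h⟩) * PowerSeries.X else 0

lemma phiVar_hasSubst (y : Fin n → K) : MvPowerSeries.HasSubst (phiVar y : ℕ → MvPowerSeries Unit K) where
  const_coeff s := by
    have : PowerSeries.constantCoeff (phiVar y s) = 0 := by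
      unfold phiVar; split_ifs <;> simp
    change IsNilpotent (PowerSeries.constantCoeff (phiVar y s))
    rw [this]
    exact IsNilpotent.zero
  coeff_zero d := by
    refine (Set.finite_lt_nat n).subset fun i hi => ?_
    simp only [Set.mem_ofPred_eq] at *
    by_contra h
    apply hi
    unfold phiVar
    rw [dif_neg h]
    exact map_zero _

noncomputable def Phi (y : Fin n → K) : MvPowerSeries ℕ A →ₐ[A] PowerSeries K :=
  MvPowerSeries.substAlgHom (phiVar_hasSubst y)

lemma prod_phiVar (y : Fin n → K) (γ : Fin n →₀ ℕ) :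
    ((Finsupp.embDomain Fin.valEmbedding γ).prod fun s e => phiVar y s ^ e) =
      PowerSeries.C (∏ i, y i ^ γ i) * PowerSeries.X ^ (∑ i, γ i) := by
  rw [Finsupp.prod_embDomain, Finsupp.prod_fintype _ _ (by intro i; simp)]
  have : ∀ i : Fin n, phiVar y (Fin.valEmbedding i) ^ γ i =
      PowerSeries.C (y i ^ γ i) * PowerSeries.X ^ (γ i) := by
    intro i
    unfold phiVar
    rw [dif_pos (by exact i.2), mul_pow, ← map_pow]
    rfl
  rw [Finset.prod_congr rfl fun i _ => this i, Finset.prod_mul_distrib, map_prod,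
    Finset.prod_pow_eq_pow_sum]

lemma prod_phiVar_zero (y : Fin n → K) (β : ℕ →₀ ℕ) (h : ∃ i ≥ n, β i ≠ 0) :
    (β.prod fun s e => phiVar y s ^ e) = 0 := by
  obtain ⟨i, hi, hb⟩ := h
  refine Finset.prod_eq_zero (Finsupp.mem_support_iff.mpr hb) ?_
  change phiVar y i ^ β i = 0
  unfold phiVar
  rw [dif_neg (not_lt.mpr hi), zero_pow hb]

lemma coeff_Phi (y : Fin n → K) (F : MvPowerSeries ℕ A) (d : ℕ) :
    PowerSeries.coeff d (Phi y F) =
      ∑ γ ∈ (univ : Finset (Fin n)).finsuppAntidiag d,
        algebraMap A K (MvPowerSeries.coeff (Finsupp.embDomain Fin.valEmbedding γ) F) *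
          ∏ i, y i ^ γ i := by
  unfold Phi
  rw [PowerSeries.coeff, MvPowerSeries.substAlgHom_apply, MvPowerSeries.coeff_subst (phiVar_hasSubst y)]
  rw [finsum_eq_sum_of_support_subset
    (s := ((univ : Finset (Fin n)).finsuppAntidiag d).map
      ⟨fun γ => Finsupp.embDomain Fin.valEmbedding γ, Finsupp.embDomain_injective _⟩)]
  · rw [Finset.sum_map]
    refine Finset.sum_congr rfl fun γ hγ => ?_
    simp only [Function.Embedding.coeFn_mk]
    have h1 := prod_phiVar y γ
    have h2 : (∑ i, γ i) = d := by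
      rw [Finset.mem_finsuppAntidiag] at hγ
      exact hγ.1
    rw [h2] at h1
    have h3 : (MvPowerSeries.coeff (Finsupp.single () d))
        ((Finsupp.embDomain Fin.valEmbedding γ).prod fun s e => phiVar y s ^ e) =
        PowerSeries.coeff d (PowerSeries.C (∏ i, y i ^ γ i) * PowerSeries.X ^ d) := by
      rw [h1]; rfl
    rw [h3, PowerSeries.coeff_C_mul, PowerSeries.coeff_X_pow_self, mul_one, Algebra.smul_def]
  · intro β hβ
    rw [Function.mem_support] at hβ
    have h0 : ∀ i ≥ n, β i = 0 := by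
      intro i hi
      by_contra hne
      apply hβ
      rw [prod_phiVar_zero y β ⟨i, hi, hne⟩, map_zero, smul_zero]
    rw [Finset.coe_map, Set.mem_image]
    refine ⟨restr n β, ?_, embDomain_restr n β h0⟩
    rw [Finset.mem_coe, Finset.mem_finsuppAntidiag]
    refine ⟨?_, Finset.subset_univ _⟩
    by_contra hne
    apply hβ
    have h1 := prod_phiVar y (restr n β)
    rw [embDomain_restr n β h0] at h1
    have h3 : (MvPowerSeries.coeff (Finsupp.single () d)) (β.prod fun s e => phiVar y s ^ e) =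
        PowerSeries.coeff d (PowerSeries.C (∏ i, y i ^ (restr n β) i) *
          PowerSeries.X ^ (∑ i, (restr n β) i)) := by
      rw [h1]; rfl
    rw [h3, PowerSeries.coeff_C_mul, PowerSeries.coeff_X_pow, if_neg (Ne.symm hne), mul_zero, smul_zero]

/-- on a series whose restriction to `n` variables is a polynomial -/
lemma Phi_eq_aeval (y : Fin n → K) (F : MvPowerSeries ℕ A) (p : MvPolynomial (Fin n) A)
    (h : MvPowerSeries.killCompl Fin.valEmbedding F = (p : MvPowerSeries (Fin n) A)) :
    Phi y F = MvPolynomial.aeval (fun i => PowerSeries.C (y i) * PowerSeries.X) p := by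
  ext d
  rw [coeff_Phi]
  have h1 : ∀ γ : Fin n →₀ ℕ, MvPowerSeries.coeff (Finsupp.embDomain Fin.valEmbedding γ) F =
      p.coeff γ := by
    intro γ
    rw [← MvPowerSeries.coeff_killCompl, h, MvPolynomial.coeff_coe]
  simp only [h1]
  rw [MvPolynomial.aeval_def, MvPolynomial.eval₂_eq', map_sum]
  have h2 : ∀ γ : Fin n →₀ ℕ, PowerSeries.coeff d (algebraMap A (PowerSeries K) (p.coeff γ) *
      ∏ i, (PowerSeries.C (y i) * PowerSeries.X) ^ γ i) =
      if (∑ i, γ i) = d then algebraMap A K (p.coeff γ) * ∏ i, y i ^ γ i else 0 := by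
    intro γ
    have : ∏ i, (PowerSeries.C (y i) * (PowerSeries.X : PowerSeries K)) ^ γ i =
        PowerSeries.C (∏ i, y i ^ γ i) * PowerSeries.X ^ (∑ i, γ i) := by
      simp only [mul_pow]
      rw [Finset.prod_mul_distrib, map_prod, Finset.prod_pow_eq_pow_sum]
      simp
    rw [this, PowerSeries.algebraMap_apply, ← mul_assoc, ← map_mul, PowerSeries.coeff_C_mul,
      PowerSeries.coeff_X_pow]
    simp [eq_comm]
  rw [Finset.sum_congr rfl fun γ _ => h2 γ, ← Finset.sum_filter]
  symm
  apply Finset.sum_subset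
  · intro γ hγ
    rw [Finset.mem_filter] at hγ
    rw [Finset.mem_finsuppAntidiag]
    exact ⟨hγ.2, Finset.subset_univ _⟩
  · intro γ hγ hγ'
    rw [Finset.mem_finsuppAntidiag] at hγ
    rw [Finset.mem_filter, not_and'] at hγ'
    have := hγ' hγ.1
    rw [MvPolynomial.notMem_support_iff] at this
    rw [this]; simp

/-- coefficient extraction from generic evaluation -/
lemma coeff_Phi_X (F : MvPowerSeries ℕ A) (γ : Fin n →₀ ℕ) :
    MvPolynomial.coeff γ (PowerSeries.coeff (∑ i, γ i)
      (Phi (MvPolynomial.X : Fin n → MvPolynomial (Fin n) A) F)) =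
      MvPowerSeries.coeff (Finsupp.embDomain Fin.valEmbedding γ) F := by
  rw [coeff_Phi, MvPolynomial.coeff_sum]
  have h1 : ∀ δ : Fin n →₀ ℕ, algebraMap A (MvPolynomial (Fin n) A)
      (MvPowerSeries.coeff (Finsupp.embDomain Fin.valEmbedding δ) F) *
      ∏ i, (MvPolynomial.X i : MvPolynomial (Fin n) A) ^ δ i =
      MvPolynomial.monomial δ (MvPowerSeries.coeff (Finsupp.embDomain Fin.valEmbedding δ) F) := by
    intro δ
    rw [MvPolynomial.monomial_eq, MvPolynomial.algebraMap_eq, Finsupp.prod_fintype]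
    simp
  simp only [h1, MvPolynomial.coeff_monomial]
  rw [Finset.sum_ite_eq']
  rw [if_pos]
  rw [Finset.mem_finsuppAntidiag]
  exact ⟨rfl, Finset.subset_univ _⟩

lemma ext_Phi {F G : MvPowerSeries ℕ A}
    (h : ∀ n, Phi (MvPolynomial.X : Fin n → MvPolynomial (Fin n) A) F = Phi MvPolynomial.X G) :
    F = G := by
  ext β
  rw [← embDomain_restr (bd β) β (bd_spec β), ← coeff_Phi_X, ← coeff_Phi_X, h]

lemma map_Phi {K' : Type*} [CommRing K'] [Algebra A K'] (φ : K →ₐ[A] K') (y : Fin n → K)
    (F : MvPowerSeries ℕ A) :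
    PowerSeries.map (φ : K →+* K') (Phi y F) = Phi (fun i => φ (y i)) F := by
  ext d
  rw [PowerSeries.coeff_map, coeff_Phi, coeff_Phi, map_sum]
  refine Finset.sum_congr rfl fun γ _ => ?_
  simp

end phi

end Pool.Agent.HLf6dccc
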