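import Pool.Agent.HLf6dccc.Exist

open Finset

namespace Pool.Agent.HLf6dccc

section perm

variable {n : ℕ}

lemma exists_perm_of_map_eq {f g : Fin n → ℕ} (h : univ.val.map f = univ.val.map g) :
    ∃ σ : Equiv.Perm (Fin n), f = g ∘ σ := by
  have hc : ∀ c, Fintype.card {a // f a = c} = Fintype.card {a // g a = c} := by
    intro c
    have := congrArg (Multiset.count c) h
    rw [Multiset.count_map, Multiset.count_map] at this
    rw [Fintype.card_subtype, Fintype.card_subtype]
    have e1 : ∀ f : Fin n → ℕ, (Multiset.filter (fun a => c = f a) univ.val).card =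
        (univ.filter (fun a => f a = c)).card := by
      intro f
      rw [← Finset.filter_val, Finset.card_val]
      congr 1
      ext a; simp [eq_comm]
    rw [e1, e1] at this
    exact this
  let e : ∀ c, {a // f a = c} ≃ {a // g a = c} := fun c => Fintype.equivOfCardEq (hc c)
  refine ⟨Equiv.ofFiberEquiv e, ?_⟩
  funext a
  exact (Equiv.ofFiberEquiv_map e a).symm

lemma map_eq_of_nz_eq {f g : Fin n → ℕ} (h : nz f = nz g) : univ.val.map f = univ.val.map g := by
  have key : ∀ f : Fin n → ℕ, univ.val.map f = nz f + Multiset.replicate (n - (nz f).card) 0 := by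
    intro f
    have h1 := Multiset.filter_add_not (fun r : ℕ => r ≠ 0) (univ.val.map f)
    have h2 : Multiset.filter (fun a : ℕ => ¬ a ≠ 0) (univ.val.map f) =
        Multiset.replicate (Multiset.filter (fun a : ℕ => ¬ a ≠ 0) (univ.val.map f)).card 0 := by
      rw [Multiset.eq_replicate_card]
      intro b hb
      rw [Multiset.mem_filter] at hb
      exact not_not.mp hb.2
    have h3 : (Multiset.filter (fun a : ℕ => ¬ a ≠ 0) (univ.val.map f)).card =
        n - (nz f).card := by
      have := congrArg Multiset.card h1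
      rw [Multiset.card_add, Multiset.card_map] at this
      simp only [Finset.card_val, Finset.card_univ, Fintype.card_fin] at this
      unfold nz
      omega
    rw [h3] at h2
    rw [h2] at h1
    exact h1.symm
  rw [key f, key g, h]

lemma exists_perm_of_nz_eq {f g : Fin n → ℕ} (h : nz f = nz g) :
    ∃ σ : Equiv.Perm (Fin n), f = g ∘ σ :=
  exists_perm_of_map_eq (map_eq_of_nz_eq h)

/-- the values `row lam i`, `i < n` for `n ≥ ℓ(λ)` -/
lemma nz_row {m : ℕ} (lam : Nat.Partition m) (h : lam.parts.card ≤ n) :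
    nz (fun i : Fin n => row lam i) = lam.parts := by
  have hlen : (lam.parts.sort (· ≥ ·)).length = lam.parts.card := Multiset.length_sort _
  have h1 : ∀ (l : List ℕ) (n : ℕ), l.length ≤ n →
      (univ.val.map (fun i : Fin n => l.getD i 0) : Multiset ℕ) =
        (l : Multiset ℕ) + Multiset.replicate (n - l.length) 0 := by
    intro l
    induction l with
    | nil =>
      intro n _
      simp [Multiset.map_const']
    | cons a l ih =>
      intro n hn
      obtain ⟨k, rfl⟩ : ∃ k, n = k + 1 := ⟨n - 1, by simp at hn; omega⟩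
      have hk : l.length ≤ k := by simpa using hn
      rw [Fin.univ_succ]
      simp only [Finset.cons_val, Multiset.map_cons, Finset.map_val, Multiset.map_map,
        Function.comp_def]
      have := ih k hk
      simp only [Fin.val_zero, List.getD_cons_zero, Function.Embedding.coeFn_mk, Fin.val_succ,
        List.getD_cons_succ, List.length_cons, Nat.add_sub_add_right]
      rw [this]
      rw [← Multiset.cons_coe, Multiset.cons_add]
  unfold nz row
  rw [h1 _ n (by rw [hlen]; exact h)]
  rw [Multiset.filter_add, Multiset.sort_eq]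
  have h2 : Multiset.filter (fun x : ℕ => x ≠ 0) (Multiset.replicate (n - (lam.parts.sort (· ≥ ·)).length) 0) = 0 := by
    rw [Multiset.filter_eq_nil]
    intro a ha
    rw [Multiset.mem_replicate] at ha
    simp [ha.2]
  rw [h2, add_zero, Multiset.filter_eq_self]
  intro a ha
  exact (lam.parts_pos ha).ne'

lemma image_eq_Rearr {m : ℕ} (lam : Nat.Partition m) (h : lam.parts.card ≤ n) :
    (Finset.univ : Finset (Equiv.Perm (Fin n))).image (fun w i => row lam (w i)) =
      Rearr n lam.parts := by
  ext α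
  rw [Finset.mem_image, mem_Rearr]
  constructor
  · rintro ⟨w, _, rfl⟩
    rw [← nz_row lam h]
    exact nz_comp (fun i : Fin n => row lam i) w
  · intro hα
    rw [← nz_row lam h] at hα
    obtain ⟨σ, hσ⟩ := exists_perm_of_nz_eq hα
    exact ⟨σ, Finset.mem_univ _, hσ.symm⟩

end perm

section exist

open MvPolynomial

variable {S : Type*} [CommRing S] [IsDomain S] [CharZero S] (t : S)

lemma exists_poly (M : Multiset ℕ) (n : ℕ) :
    ∃ p : MvPolynomial (Fin n) S, numer n M X (C t) = vand X * p := by
  refine vand_dvd _ fun i j hij => ?_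
  rw [map_numer]
  have : (fun k : Fin n => rename (Equiv.swap i j) (X k : MvPolynomial (Fin n) S)) =
      X ∘ (Equiv.swap i j) := by
    funext k; simp
  rw [this, rename_C, numer_comp, Equiv.Perm.sign_swap hij]
  simp

noncomputable def hlPoly (M : Multiset ℕ) (n : ℕ) : MvPolynomial (Fin n) S :=
  (exists_poly t M n).choose

lemma hlPoly_spec (M : Multiset ℕ) (n : ℕ) :
    numer n M X (C t) = vand X * hlPoly t M n := (exists_poly t M n).choose_spec

lemma vand_X_ne_zero (n : ℕ) : vand (X : Fin n → MvPolynomial (Fin n) S) ≠ 0 :=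
  vand_ne_zero _ MvPolynomial.X_injective

lemma stab (M : Multiset ℕ) (n : ℕ) :
    MvPowerSeries.killCompl Fin.castSuccEmb (hlPoly t M (n+1) : MvPowerSeries (Fin (n+1)) S) =
      (hlPoly t M n : MvPowerSeries (Fin n) S) := by
  have h1 := congrArg (fun p : MvPolynomial (Fin (n+1)) S =>
    MvPowerSeries.killCompl Fin.castSuccEmb (coeToMvPowerSeries.ringHom p : MvPowerSeries (Fin (n+1)) S))
    (hlPoly_spec t M (n+1))
  have h2 := congrArg (fun p : MvPolynomial (Fin n) S => (coeToMvPowerSeries.ringHom p : MvPowerSeries (Fin n) S))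
    (hlPoly_spec t M n)
  simp only [map_mul, map_numer, map_vand] at h1 h2
  have hX : (fun i : Fin (n+1) => MvPowerSeries.killCompl Fin.castSuccEmb
      (coeToMvPowerSeries.ringHom (X i : MvPolynomial (Fin (n+1)) S))) =
      Fin.snoc (fun i : Fin n => (MvPowerSeries.X i : MvPowerSeries (Fin n) S)) 0 := by
    funext i
    refine Fin.lastCases ?_ (fun i => ?_) i
    · simp only [coeToMvPowerSeries.ringHom_apply, coe_X, Fin.snoc_last]
      apply MvPowerSeries.killCompl_X_eq_zero
      rintro ⟨j, hj⟩
      exact (Fin.castSucc_lt_last j).ne hj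
    · simp only [coeToMvPowerSeries.ringHom_apply, coe_X, Fin.snoc_castSucc]
      exact MvPowerSeries.killCompl_X (e := Fin.castSuccEmb) i
  have hC : MvPowerSeries.killCompl Fin.castSuccEmb
      (coeToMvPowerSeries.ringHom (C t : MvPolynomial (Fin (n+1)) S)) =
      (MvPowerSeries.C t : MvPowerSeries (Fin n) S) := by
    simp only [coeToMvPowerSeries.ringHom_apply, coe_C]
    exact MvPowerSeries.killCompl_C (e := Fin.castSuccEmb) t
  rw [hX, hC, numer_snoc_zero, vand_snoc_zero] at h1
  simp only [coeToMvPowerSeries.ringHom_apply, coe_X, coe_C] at h1 h2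
  rw [h2] at h1
  have hv : vand (fun i : Fin n => (MvPowerSeries.X i : MvPowerSeries (Fin n) S)) ≠ 0 := by
    refine vand_ne_zero _ ?_
    intro i j hij
    exact MvPowerSeries.X_inj.mp hij
  have hp : (∏ i : Fin n, (MvPowerSeries.X i : MvPowerSeries (Fin n) S)) ≠ 0 := by
    refine Finset.prod_ne_zero_iff.mpr fun i _ => ?_
    intro h0
    have := congrArg (MvPowerSeries.coeff (Finsupp.single i 1)) h0
    rw [MvPowerSeries.coeff_index_single_self_X, map_zero] at this
    exact one_ne_zero this
  have := mul_ne_zero hv hp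
  apply mul_left_cancel₀ this
  rw [← h1]
  ring

/-- restriction of exponents -/
noncomputable def restr (n : ℕ) (β : ℕ →₀ ℕ) : Fin n →₀ ℕ :=
  Finsupp.equivFunOnFinite.symm (fun i : Fin n => β i)

@[simp] lemma restr_apply (n : ℕ) (β : ℕ →₀ ℕ) (i : Fin n) : restr n β i = β i := rfl

lemma embDomain_restr (n : ℕ) (β : ℕ →₀ ℕ) (h : ∀ i ≥ n, β i = 0) :
    Finsupp.embDomain Fin.valEmbedding (restr n β) = β := by
  ext i
  by_cases hi : i < n
  · have : i = Fin.valEmbedding (⟨i, hi⟩ : Fin n) := rfl
    conv_lhs => rw [this]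
    rw [Finsupp.embDomain_apply_self]
    rfl
  · rw [h i (not_lt.mp hi)]
    apply Finsupp.embDomain_of_notMem_range
    rintro ⟨j, hj⟩
    exact hi (hj ▸ j.2)

lemma restr_embDomain (n : ℕ) (γ : Fin n →₀ ℕ) :
    restr n (Finsupp.embDomain Fin.valEmbedding γ) = γ := by
  ext i
  rw [restr_apply]
  exact Finsupp.embDomain_apply_self Fin.valEmbedding γ i

/-- a bound for the support -/
def bd (β : ℕ →₀ ℕ) : ℕ := β.support.sup id + 1

lemma bd_spec (β : ℕ →₀ ℕ) (i : ℕ) (hi : bd β ≤ i) : β i = 0 := by
  by_contra h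
  have : i ≤ β.support.sup id := Finset.le_sup (f := id) (Finsupp.mem_support_iff.mpr h)
  unfold bd at hi
  omega

lemma bd_le {n : ℕ} (γ : Fin n →₀ ℕ) : bd (Finsupp.embDomain Fin.valEmbedding γ) ≤ n ∨
    (Finsupp.embDomain Fin.valEmbedding γ) = 0 := by
  by_cases h : (Finsupp.embDomain Fin.valEmbedding γ) = 0
  · exact Or.inr h
  · left
    unfold bd
    have hne : (Finsupp.embDomain Fin.valEmbedding γ).support.Nonempty := by
      rw [Finsupp.support_nonempty_iff]; exact h
    have : (Finsupp.embDomain Fin.valEmbedding γ).support.sup id < n := by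
      obtain ⟨i, hi⟩ := hne
      rw [Finset.sup_lt_iff]
      · intro j hj
        rw [Finsupp.support_embDomain, Finset.mem_map] at hj
        obtain ⟨k, _, rfl⟩ := hj
        exact k.2
      · rw [Finsupp.support_embDomain, Finset.mem_map] at hi
        obtain ⟨k, _, _⟩ := hi
        exact lt_of_le_of_lt (Nat.zero_le _) k.2
    omega

lemma stab1 (M : Multiset ℕ) (n : ℕ) (β : ℕ →₀ ℕ) (h : ∀ i ≥ n, β i = 0) :
    coeff (restr (n+1) β) (hlPoly t M (n+1)) = coeff (restr n β) (hlPoly t M n) := by
  have := congrArg (MvPowerSeries.coeff (restr n β)) (stab t M n)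
  rw [MvPowerSeries.coeff_killCompl, MvPolynomial.coeff_coe, MvPolynomial.coeff_coe] at this
  rw [← this]
  congr 1
  ext i
  refine Fin.lastCases ?_ (fun i => ?_) i
  · rw [restr_apply, Finsupp.embDomain_of_notMem_range]
    · exact h _ (by simp)
    · rintro ⟨j, hj⟩
      exact (Fin.castSucc_lt_last j).ne hj
  · rw [restr_apply]
    exact (Finsupp.embDomain_apply_self Fin.castSuccEmb (restr n β) i).symm

lemma stab2 (M : Multiset ℕ) (n : ℕ) (β : ℕ →₀ ℕ) (h : ∀ i ≥ n, β i = 0) (k : ℕ) :
    coeff (restr (n+k) β) (hlPoly t M (n+k)) = coeff (restr n β) (hlPoly t M n) := by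
  induction k with
  | zero => rfl
  | succ k ih =>
    rw [← ih]
    exact stab1 t M (n+k) β (fun i hi => h i (by omega))

lemma stab3 (M : Multiset ℕ) {n n' : ℕ} (β : ℕ →₀ ℕ) (h : ∀ i ≥ n, β i = 0)
    (h' : ∀ i ≥ n', β i = 0) :
    coeff (restr n β) (hlPoly t M n) = coeff (restr n' β) (hlPoly t M n') := by
  rcases le_total n n' with hn | hn
  · obtain ⟨k, rfl⟩ := Nat.exists_eq_add_of_le hn
    exact (stab2 t M n β h k).symm
  · obtain ⟨k, rfl⟩ := Nat.exists_eq_add_of_le hn
    exact (stab2 t M n' β h' k)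

noncomputable def hlSeries (M : Multiset ℕ) : MvPowerSeries ℕ S :=
  fun β => coeff (restr (bd β) β) (hlPoly t M (bd β))

lemma embDomain_ge {n : ℕ} (γ : Fin n →₀ ℕ) (i : ℕ) (hi : i ≥ n) :
    Finsupp.embDomain Fin.valEmbedding γ i = 0 := by
  apply Finsupp.embDomain_of_notMem_range
  rintro ⟨j, hj⟩
  have := j.2
  have h2 : (j : ℕ) = i := hj
  omega

lemma killCompl_hlSeries (M : Multiset ℕ) (n : ℕ) :
    MvPowerSeries.killCompl Fin.valEmbedding (hlSeries t M) =
      (hlPoly t M n : MvPowerSeries (Fin n) S) := by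
  ext γ
  rw [MvPowerSeries.coeff_killCompl, MvPolynomial.coeff_coe]
  change coeff (restr (bd (Finsupp.embDomain Fin.valEmbedding γ)) (Finsupp.embDomain Fin.valEmbedding γ))
    (hlPoly t M _) = _
  rw [stab3 t M (Finsupp.embDomain Fin.valEmbedding γ) (bd_spec _) (n' := n) (embDomain_ge γ),
    restr_embDomain]

end exist

end Pool.Agent.HLf6dccc
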