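import Pool.Agent.HLf6dccc.Omega

open Finset

namespace Pool.Agent.HLf6dccc

section homog

variable {n : ℕ} {B : Type*} [CommRing B]

lemma vand_mul_right (x : Fin n → B) (c : B) :
    vand (fun i => x i * c) = vand x * pairProd (fun _ _ : Fin n => c) := by
  unfold vand
  rw [← pairProd_mul]
  exact pairProd_congr fun i j _ => by ring

lemma termN_mul_right (x : Fin n → B) (c t : B) (α : Fin n → ℕ) :
    termN (fun i => x i * c) t α =
      c ^ (∑ i, α i) * termN x t α * pairProd (fun _ _ : Fin n => c) := by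
  unfold termN
  have h1 : pairProd (DD (fun i => x i * c) t α) =
      pairProd (DD x t α) * pairProd (fun _ _ : Fin n => c) := by
    rw [← pairProd_mul]
    refine pairProd_congr fun i j _ => ?_
    unfold DD
    split_ifs <;> ring
  have h2 : ∏ i, (x i * c) ^ α i = (∏ i, x i ^ α i) * c ^ (∑ i, α i) := by
    simp only [mul_pow]
    rw [Finset.prod_mul_distrib, Finset.prod_pow_eq_pow_sum]
  rw [h1, h2]; ring

lemma numer_mul_right (M : Multiset ℕ) (x : Fin n → B) (c t : B) :
    numer n M (fun i => x i * c) t =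
      c ^ M.sum * numer n M x t * pairProd (fun _ _ : Fin n => c) := by
  unfold numer
  rw [Finset.mul_sum, Finset.sum_mul]
  refine Finset.sum_congr rfl fun α hα => ?_
  rw [mem_Rearr] at hα
  rw [termN_mul_right, ← hα, sum_nz]

end homog

section hl

variable {n : ℕ} {K : Type*} [CommRing K] [IsDomain K] [Algebra Coef K]

noncomputable def phi0 : Polynomial ℤ →+* Coef :=
  (Int.castRingHom Coef).comp (Polynomial.evalRingHom (-1))

lemma phi0_X : phi0 Polynomial.X = -1 := by simp [phi0]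

lemma Phi_hl {m : ℕ} (lam : Nat.Partition m) (y : Fin n → K) :
    PowerSeries.C (vand y) * Phi y (hlNegOne lam) =
      PowerSeries.X ^ m * PowerSeries.C (numer n lam.parts y (-1)) := by
  have h1 : MvPowerSeries.killCompl Fin.valEmbedding (hlNegOne lam) =
      ((MvPolynomial.map phi0 (hlPoly Polynomial.X lam.parts n) : MvPolynomial (Fin n) Coef) :
        MvPowerSeries (Fin n) Coef) := by
    unfold hlNegOne
    rw [hallLittlewoodP_eq]
    ext γ
    rw [MvPowerSeries.coeff_killCompl, MvPowerSeries.coeff_map, ← MvPowerSeries.coeff_killCompl,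
      killCompl_hlSeries, MvPolynomial.coeff_coe, MvPolynomial.coeff_coe, MvPolynomial.coeff_map]
    rfl
  rw [Phi_eq_aeval y _ _ h1]
  set ψ : MvPolynomial (Fin n) (Polynomial ℤ) →+* PowerSeries K :=
    (MvPolynomial.aeval (R := Coef) (fun i => PowerSeries.C (y i) * PowerSeries.X) :
      MvPolynomial (Fin n) Coef →ₐ[Coef] PowerSeries K).toRingHom.comp (MvPolynomial.map phi0) with hψ
  have h2 := congrArg ψ (hlPoly_spec (Polynomial.X : Polynomial ℤ) lam.parts n)
  rw [map_mul, map_numer, map_vand] at h2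
  have hX : (fun i : Fin n => ψ (MvPolynomial.X i)) =
      fun i => PowerSeries.C (y i) * PowerSeries.X := by
    funext i
    simp [hψ]
  have hC : ψ (MvPolynomial.C Polynomial.X) = -1 := by
    simp [hψ, phi0_X]
  rw [hX, hC, numer_mul_right, vand_mul_right] at h2
  have h3 : numer n lam.parts (fun i => PowerSeries.C (y i)) (-1) =
      PowerSeries.C (numer n lam.parts y (-1)) := by
    rw [map_numer]; simp
  have h4 : vand (fun i => PowerSeries.C (y i)) = PowerSeries.C (vand y) := by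
    rw [map_vand]
  rw [h3, h4, lam.parts_sum] at h2
  have hne : pairProd (fun _ _ : Fin n => (PowerSeries.X : PowerSeries K)) ≠ 0 := by
    unfold pairProd
    refine Finset.prod_ne_zero_iff.mpr fun i _ => Finset.prod_ne_zero_iff.mpr fun j _ => ?_
    split_ifs
    · exact PowerSeries.X_ne_zero
    · exact one_ne_zero
  apply mul_right_cancel₀ hne
  rw [h2]
  simp only [hψ, RingHom.comp_apply]
  rw [mul_right_comm]
  rfl

lemma coeff_Phi_hl {m : ℕ} (lam : Nat.Partition m) (y : Fin n → K) (e : ℕ) :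
    vand y * PowerSeries.coeff e (Phi y (hlNegOne lam)) =
      if e = m then numer n lam.parts y (-1) else 0 := by
  have := congrArg (PowerSeries.coeff e) (Phi_hl lam y)
  rw [PowerSeries.coeff_C_mul, mul_comm (PowerSeries.X ^ m), PowerSeries.coeff_C_mul,
    PowerSeries.coeff_X_pow] at this
  rw [this]
  split_ifs <;> simp

lemma sum_restr (β : ℕ →₀ ℕ) (n : ℕ) (h : ∀ i ≥ n, β i = 0) :
    ∑ i, restr n β i = β.sum fun _ k => k := by
  conv_rhs => rw [← embDomain_restr n β h]
  rw [Finsupp.sum_embDomain, Finsupp.sum_fintype _ _ (by simp)]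

lemma hlNegOne_homog {m : ℕ} (lam : Nat.Partition m) (β : ℕ →₀ ℕ)
    (h : (β.sum fun _ k => k) ≠ m) : MvPowerSeries.coeff β (hlNegOne lam) = 0 := by
  have h1 := coeff_Phi_X (hlNegOne lam) (restr (bd β) β)
  rw [embDomain_restr _ β (bd_spec β), sum_restr _ _ (bd_spec β)] at h1
  rw [← h1]
  have h2 := coeff_Phi_hl lam (MvPolynomial.X : Fin (bd β) → MvPolynomial (Fin (bd β)) Coef)
    (β.sum fun _ k => k)
  rw [if_neg h, mul_eq_zero] at h2
  rcases h2 with h2 | h2
  · exact absurd h2 (vand_X_ne_zero _)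
  · rw [h2]; simp

lemma coeff_w (β : ℕ →₀ ℕ) (e : ℕ) (he : (β.sum fun _ k => k) = e) :
    MvPowerSeries.coeff β w =
      ∑ lam : Nat.Partition e, omega lam * MvPowerSeries.coeff β (hlNegOne lam) := by
  change ∑ᶠ lam : (Σ m, Nat.Partition m), MvPowerSeries.coeff β
    (MvPowerSeries.C (omega lam.2) * hlNegOne lam.2) = _
  rw [finsum_eq_sum_of_support_subset (s := (univ : Finset (Nat.Partition e)).map
    ⟨fun lam => (⟨e, lam⟩ : Σ m, Nat.Partition m), fun x y h => by simpa using h⟩)]
  · rw [Finset.sum_map]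
    refine Finset.sum_congr rfl fun lam _ => ?_
    change MvPowerSeries.coeff β (MvPowerSeries.C (omega lam) * hlNegOne lam) = _
    rw [MvPowerSeries.coeff_C_mul]
  · rintro ⟨m, lam⟩ hlam
    rw [Function.mem_support] at hlam
    have : m = e := by
      by_contra hne
      apply hlam
      rw [MvPowerSeries.coeff_C_mul]
      rw [hlNegOne_homog lam β (by rw [he]; exact Ne.symm hne), mul_zero]
    subst this
    rw [Finset.coe_map, Set.mem_image]
    exact ⟨lam, Finset.mem_coe.mpr (Finset.mem_univ _), rfl⟩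

lemma coeff_Phi_w (y : Fin n → K) (e : ℕ) :
    PowerSeries.coeff e (Phi y w) = ∑ lam : Nat.Partition e,
      algebraMap Coef K (omega lam) * PowerSeries.coeff e (Phi y (hlNegOne lam)) := by
  rw [coeff_Phi]
  simp only [coeff_Phi, Finset.mul_sum]
  rw [Finset.sum_comm]
  refine Finset.sum_congr rfl fun γ hγ => ?_
  rw [Finset.mem_finsuppAntidiag] at hγ
  rw [coeff_w _ e, map_sum, Finset.sum_mul]
  · refine Finset.sum_congr rfl fun lam _ => ?_
    rw [map_mul, mul_assoc]
  · rw [Finsupp.sum_embDomain, Finsupp.sum_fintype _ _ (by simp)]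
    exact hγ.1

/-- the numerator of `w` in `n` variables, degree `e` -/
noncomputable def SS (y : Fin n → K) (e : ℕ) : K :=
  ∑ α ∈ piAntidiag (univ : Finset (Fin n)) e, algebraMap Coef K (omegaM (nz α)) * termN y (-1) α

lemma vand_coeff_w (y : Fin n → K) (e : ℕ) :
    vand y * PowerSeries.coeff e (Phi y w) = SS y e := by
  rw [coeff_Phi_w, Finset.mul_sum]
  unfold SS
  have h1 : ∀ lam : Nat.Partition e, vand y *
      (algebraMap Coef K (omega lam) * PowerSeries.coeff e (Phi y (hlNegOne lam))) =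
      ∑ α ∈ piAntidiag (univ : Finset (Fin n)) e,
        if nz α = lam.parts then algebraMap Coef K (omegaM (nz α)) * termN y (-1) α else 0 := by
    intro lam
    rw [mul_left_comm, coeff_Phi_hl, if_pos rfl, omega_eq]
    unfold numer
    rw [Finset.mul_sum, ← Finset.sum_filter]
    apply Finset.sum_congr_of_eq_on_inter
    · intro α hα hα'
      exfalso
      rw [mem_Rearr] at hα
      apply hα'
      rw [Finset.mem_filter, Finset.mem_piAntidiag]
      refine ⟨⟨?_, fun i _ => Finset.mem_univ i⟩, hα⟩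
      change ∑ i, α i = e
      rw [← sum_nz, hα, lam.parts_sum]
    · intro α hα hα'
      exfalso
      rw [Finset.mem_filter] at hα
      exact hα' (mem_Rearr.mpr hα.2)
    · intro α hα _
      rw [mem_Rearr] at hα
      rw [hα]
  rw [Finset.sum_congr rfl fun lam _ => h1 lam, Finset.sum_comm]
  refine Finset.sum_congr rfl fun α hα => ?_
  rw [Finset.mem_piAntidiag] at hα
  have hsum : (univ.val.map α).sum = e := hα.1
  rw [Finset.sum_eq_single (Nat.Partition.ofSums e (univ.val.map α) hsum)]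
  · rw [if_pos]
    rfl
  · intro lam _ hne
    rw [if_neg]
    intro h
    apply hne
    ext1
    rw [← h]
    rfl
  · intro h
    exact absurd (Finset.mem_univ _) h

lemma SS_comp (y : Fin n → K) (e : ℕ) (σ : Equiv.Perm (Fin n)) :
    SS (y ∘ σ) e = (Equiv.Perm.sign σ : ℤ) * SS y e := by
  unfold SS
  rw [Finset.mul_sum]
  refine Finset.sum_nbij' (fun α => α ∘ σ.symm) (fun α => α ∘ σ) ?_ ?_ ?_ ?_ ?_
  · intro α hα
    rw [Finset.mem_piAntidiag] at *
    refine ⟨?_, fun i _ => Finset.mem_univ i⟩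
    rw [← hα.1]
    exact Equiv.sum_comp σ.symm α
  · intro α hα
    rw [Finset.mem_piAntidiag] at *
    refine ⟨?_, fun i _ => Finset.mem_univ i⟩
    rw [← hα.1]
    exact Equiv.sum_comp σ α
  · intro α _; funext i; simp
  · intro α _; funext i; simp
  · intro α _
    rw [termN_comp, nz_comp]
    ring

lemma sum_piAntidiag_succ {M : Type*} [AddCommMonoid M] (f : (Fin (n+1) → ℕ) → M) (e : ℕ) :
    ∑ α ∈ piAntidiag (univ : Finset (Fin (n+1))) e, f α =
      ∑ p ∈ antidiagonal e, ∑ α ∈ piAntidiag (univ : Finset (Fin n)) p.2,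
        f (Fin.cons p.1 α) := by
  rw [Finset.sum_sigma']
  refine Finset.sum_bij' (fun α _ => (⟨(α 0, e - α 0), Fin.tail α⟩ : (_ : ℕ × ℕ) × (Fin n → ℕ)))
    (fun q _ => Fin.cons q.1.1 q.2) ?_ ?_ ?_ ?_ ?_
  · intro α hα
    rw [Finset.mem_piAntidiag] at hα
    have h := hα.1
    rw [Fin.sum_univ_succ] at h
    rw [Finset.mem_sigma, Finset.HasAntidiagonal.mem_antidiagonal, Finset.mem_piAntidiag]
    refine ⟨?_, ?_, fun i _ => Finset.mem_univ i⟩
    · simp only; omega
    · simp only
      change ∑ i : Fin n, α i.succ = _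
      omega
  · intro q hq
    rw [Finset.mem_sigma, Finset.HasAntidiagonal.mem_antidiagonal, Finset.mem_piAntidiag] at hq
    rw [Finset.mem_piAntidiag]
    refine ⟨?_, fun i _ => Finset.mem_univ i⟩
    rw [Fin.sum_univ_succ]
    simp only [Fin.cons_zero, Fin.cons_succ]
    rw [hq.2.1, hq.1]
  · intro α _
    simp
  · rintro ⟨⟨r, e'⟩, α⟩ hq
    rw [Finset.mem_sigma, Finset.HasAntidiagonal.mem_antidiagonal] at hq
    have h := hq.1
    simp only at h
    simp only [Fin.cons_zero, Fin.tail_cons]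
    have : e - r = e' := by omega
    rw [this]
  · intro α _
    simp

lemma SS_cons_cons (x : Fin n → K) (z : K) (e : ℕ) :
    SS (Fin.cons z (Fin.cons (-z) x : Fin (n+1) → K) : Fin (n+2) → K) e =
      2 * z * (∏ i, (x i ^ 2 - z ^ 2)) * ∑ p ∈ antidiagonal e, ∑ q ∈ antidiagonal p.2,
        if q.1 = p.1 then algebraMap Coef K (omega2 p.1) * (-z ^ 2) ^ p.1 * SS x q.2 else 0 := by
  unfold SS
  rw [sum_piAntidiag_succ, Finset.mul_sum]
  refine Finset.sum_congr rfl fun p _ => ?_
  rw [sum_piAntidiag_succ, Finset.mul_sum]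
  refine Finset.sum_congr rfl fun q _ => ?_
  split_ifs with h
  · rw [Finset.mul_sum, Finset.mul_sum]
    refine Finset.sum_congr rfl fun α _ => ?_
    rw [h, termN_cons_cons_eq, omegaM_nz_cons_cons, map_mul]
    ring
  · rw [mul_zero]
    refine Finset.sum_eq_zero fun α _ => ?_
    rw [termN_cons_cons_ne _ _ _ _ (Ne.symm h), mul_zero]

lemma antidiag_double {M : Type*} [AddCommMonoid M] (h : ℕ → ℕ → M) (e : ℕ) :
    (∑ p ∈ antidiagonal e, ∑ q ∈ antidiagonal p.2, if q.1 = p.1 then h p.1 q.2 else 0) =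
      ∑ k ∈ antidiagonal e, if Even k.1 then h (k.1 / 2) k.2 else 0 := by
  rw [Finset.sum_sigma', ← Finset.sum_filter, ← Finset.sum_filter]
  refine Finset.sum_bij' (fun q _ => (2 * q.1.1, q.2.2))
    (fun k _ => (⟨(k.1 / 2, k.1 / 2 + k.2), (k.1 / 2, k.2)⟩ : (_ : ℕ × ℕ) × (ℕ × ℕ))) ?_ ?_ ?_ ?_ ?_
  · rintro ⟨⟨a, b⟩, ⟨c, d⟩⟩ hq
    simp only [Finset.mem_filter, Finset.mem_sigma, Finset.HasAntidiagonal.mem_antidiagonal] at *
    refine ⟨by omega, ⟨a, by ring⟩⟩
  · rintro ⟨a, b⟩ hk
    simp only [Finset.mem_filter, Finset.mem_sigma, Finset.HasAntidiagonal.mem_antidiagonal] at *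
    obtain ⟨h1, ⟨r, hr⟩⟩ := hk
    refine ⟨⟨?_, ?_⟩, ?_⟩
    · omega
    · trivial
    · trivial
  · rintro ⟨⟨a, b⟩, ⟨c, d⟩⟩ hq
    simp only [Finset.mem_filter, Finset.mem_sigma, Finset.HasAntidiagonal.mem_antidiagonal] at *
    obtain ⟨⟨h1, h2⟩, h3⟩ := hq
    subst h3
    have : 2 * c / 2 = c := by omega
    rw [this, h2]
  · rintro ⟨a, b⟩ hk
    simp only [Finset.mem_filter, Finset.HasAntidiagonal.mem_antidiagonal] at *
    obtain ⟨h1, ⟨r, hr⟩⟩ := hk
    have : 2 * (a / 2) = a := by omega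
    rw [this]
  · rintro ⟨⟨a, b⟩, ⟨c, d⟩⟩ hq
    simp only
    have : 2 * a / 2 = a := by omega
    rw [this]

end hl

end Pool.Agent.HLf6dccc
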